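import Pool.Agent.W934.K.Tup

/-!
# Numerical lemmas and facets of coloured edges
-/

set_option autoImplicit false

open Finset

namespace Pool.Agent.W934.K

variable {V : Type*} [DecidableEq V]

theorem image_univ {r : ℕ} {κ : ℕ → Fin r} {F : Finset ℕ} (hF : F.card = r)
    (hκF : Set.InjOn κ (F : Set ℕ)) : F.image κ = univ := by
  apply eq_univ_of_card
  rw [card_image_of_injOn hκF, hF, Fintype.card_fin]

/-- facets of a properly coloured edge -/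
theorem facet_eq {r : ℕ} {κ : ℕ → Fin r} {F g : Finset ℕ} {v : ℕ} (hF : F.card = r)
    (hκF : Set.InjOn κ (F : Set ℕ)) (hg : g.card + 1 = r) (hgF : g ⊆ F)
    (hκ : Set.InjOn κ (insert v g : Finset ℕ)) (hv : v ∉ g) :
    g = F.filter (fun x => κ x ≠ κ v) := by
  apply eq_of_subset_of_card_le
  · intro x hx
    refine mem_filter.mpr ⟨hgF hx, ?_⟩
    intro h
    have := hκ (by simp [hx]) (by simp) h
    exact hv (this ▸ hx)
  · obtain ⟨y, hy, hyv⟩ := mem_image.mp (image_univ hF hκF ▸ mem_univ (κ v))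
    have h1 : F.filter (fun x => κ x ≠ κ v) ⊆ F.erase y := by
      intro x hx
      obtain ⟨hx1, hx2⟩ := mem_filter.mp hx
      exact mem_erase.mpr ⟨fun h => hx2 (h ▸ hyv), hx1⟩
    have := card_le_card h1
    rw [card_erase_of_mem hy] at this
    omega

theorem facet_image {r : ℕ} {κ : ℕ → Fin r} {F : Finset ℕ} (hF : F.card = r)
    (hκF : Set.InjOn κ (F : Set ℕ)) {φ : ℕ → V} {p : Fin r → V} (hp : Function.Injective p)
    (hφ : ∀ x ∈ F, φ x = p (κ x)) (q : Fin r) :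
    (F.filter (fun x => κ x ≠ q)).image φ = (im p).erase (p q) := by
  ext w
  simp only [mem_image, mem_filter, mem_erase, im, mem_univ, true_and]
  constructor
  · rintro ⟨x, ⟨hx1, hx2⟩, rfl⟩
    rw [hφ x hx1]
    exact ⟨fun h => hx2 (hp h), κ x, rfl⟩
  · rintro ⟨hw, j, rfl⟩
    obtain ⟨x, hx, hxj⟩ := mem_image.mp (image_univ hF hκF ▸ mem_univ j)
    refine ⟨x, ⟨hx, ?_⟩, by rw [hφ x hx, hxj]⟩
    intro h
    exact hw (by rw [← h, hxj])

/-- prefix sums of a monotone sequence -/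
theorem prefix_avg {r : ℕ} (b : Fin r → ℕ) (hb : Monotone b) (last : Fin r)
    (hlast : (last : ℕ) + 1 = r) (q : Fin r) (hq : q < last) :
    ((r : ℝ) - 1) * (∑ j ∈ Iic q, (b j : ℝ)) ≤
      (((q : ℕ) : ℝ) + 1) * ((∑ j, (b j : ℝ)) - b last) := by
  have hU : (univ : Finset (Fin r)) = (Iic q ∪ Ioo q last) ∪ {last} := by
    ext j
    simp only [mem_univ, mem_union, mem_Iic, mem_Ioo, mem_singleton, true_iff]
    rcases le_or_gt j q with h | h
    · exact Or.inl (Or.inl h)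
    · rcases eq_or_ne j last with h' | h'
      · exact Or.inr h'
      · left; right
        refine ⟨h, ?_⟩
        rw [Fin.lt_def]
        have : (j : ℕ) ≠ last := fun h'' => h' (Fin.ext h'')
        have := j.isLt
        omega
  have hd1 : Disjoint (Iic q ∪ Ioo q last) {last} := by
    rw [disjoint_singleton_right]
    simp only [mem_union, mem_Iic, mem_Ioo, lt_irrefl, and_false, or_false, not_le]
    exact hq
  have hd2 : Disjoint (Iic q) (Ioo q last) := by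
    rw [disjoint_left]
    intro j hj hj'
    exact absurd (mem_Iic.mp hj) (not_le.mpr (mem_Ioo.mp hj').1)
  have hsum : (∑ j, (b j : ℝ)) = (∑ j ∈ Iic q, (b j : ℝ)) + (∑ j ∈ Ioo q last, (b j : ℝ))
      + b last := by
    rw [hU, sum_union hd1, sum_union hd2, sum_singleton]
  have h1 : (∑ j ∈ Iic q, (b j : ℝ)) ≤ (((q : ℕ) : ℝ) + 1) * b q := by
    have := sum_le_card_nsmul (Iic q) (fun j => (b j : ℝ)) (b q)
      (fun j hj => by exact_mod_cast hb (mem_Iic.mp hj))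
    rw [Fin.card_Iic, nsmul_eq_mul] at this
    push_cast at this
    exact this
  have h2 : ((r : ℝ) - 2 - ((q : ℕ) : ℝ)) * b q ≤ ∑ j ∈ Ioo q last, (b j : ℝ) := by
    have := card_nsmul_le_sum (Ioo q last) (fun j => (b j : ℝ)) (b q)
      (fun j hj => by exact_mod_cast hb (mem_Ioo.mp hj).1.le)
    rw [Fin.card_Ioo, nsmul_eq_mul] at this
    have hq' : (q : ℕ) < last := hq
    have e1 : (((last : ℕ) - (q : ℕ) - 1 : ℕ) : ℝ) = (r : ℝ) - 2 - ((q : ℕ) : ℝ) := by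
      have : (last : ℕ) - (q : ℕ) - 1 + 2 + q = r := by omega
      have h' : ((((last : ℕ) - (q : ℕ) - 1 : ℕ) : ℝ)) + 2 + ((q : ℕ) : ℝ) = (r : ℝ) := by
        exact_mod_cast this
      linarith
    rw [e1] at this
    exact this
  have hq' : (q : ℕ) < last := hq
  have hrq : 0 ≤ (r : ℝ) - 2 - ((q : ℕ) : ℝ) := by
    have : (q : ℕ) + 2 ≤ r := by omega
    have : ((q : ℕ) : ℝ) + 2 ≤ (r : ℝ) := by exact_mod_cast this
    linarith
  have hq0 : (0 : ℝ) ≤ ((q : ℕ) : ℝ) + 1 := by positivity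
  rw [hsum]
  have e1 : ((r : ℝ) - 1) * (∑ j ∈ Iic q, (b j : ℝ)) =
      (((q : ℕ) : ℝ) + 1) * (∑ j ∈ Iic q, (b j : ℝ)) +
      ((r : ℝ) - 2 - ((q : ℕ) : ℝ)) * (∑ j ∈ Iic q, (b j : ℝ)) := by ring
  have e2 : ((r : ℝ) - 2 - ((q : ℕ) : ℝ)) * (∑ j ∈ Iic q, (b j : ℝ)) ≤
      ((r : ℝ) - 2 - ((q : ℕ) : ℝ)) * ((((q : ℕ) : ℝ) + 1) * b q) :=
    mul_le_mul_of_nonneg_left h1 hrq
  have e3 : ((r : ℝ) - 2 - ((q : ℕ) : ℝ)) * ((((q : ℕ) : ℝ) + 1) * b q) =
      (((q : ℕ) : ℝ) + 1) * (((r : ℝ) - 2 - ((q : ℕ) : ℝ)) * b q) := by ring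
  have e4 := mul_le_mul_of_nonneg_left h2 hq0
  have e5 : (((q : ℕ) : ℝ) + 1) * ((∑ j ∈ Iic q, (b j : ℝ)) + (∑ j ∈ Ioo q last, (b j : ℝ))
      + b last - b last) = (((q : ℕ) : ℝ) + 1) * (∑ j ∈ Iic q, (b j : ℝ)) +
      (((q : ℕ) : ℝ) + 1) * (∑ j ∈ Ioo q last, (b j : ℝ)) := by ring
  rw [e5, e1]
  linarith

/-- the constants -/
theorem numerics {r c : ℕ} (K : ℕ) (hr : 2 ≤ r) (hc : 1 ≤ c)
    (hK : 8 * c ^ 2 * r ^ (r + 4) ≤ K) (B1 B2 C : ℝ)
    (hB1 : B1 = ((c : ℝ) - 1) * (r : ℝ) ^ r * (2 * r + 1))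
    (hB2 : B2 = 2 * r * ((c : ℝ) - 1) + B1) (hC : C = 2 * B2 + 1) :
    (r : ℝ) * (c + C) ≤ K ∧ 2 * r * ((r : ℝ) ^ 2 * c * B2 + B1) < K := by
  have hrR : (2 : ℝ) ≤ r := by exact_mod_cast hr
  have hcR : (1 : ℝ) ≤ c := by exact_mod_cast hc
  have hKR : 8 * (c : ℝ) ^ 2 * ((r : ℝ) ^ r * (r : ℝ) ^ 4) ≤ K := by
    rw [← pow_add]
    exact_mod_cast hK
  have hx4 : (4 : ℝ) ≤ (r : ℝ) ^ r := by
    calc (4 : ℝ) = 2 ^ 2 := by norm_num
      _ ≤ (r : ℝ) ^ 2 := by gcongr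
      _ ≤ (r : ℝ) ^ r := pow_le_pow_right₀ (by linarith) hr
  set x : ℝ := (r : ℝ) ^ r with hx
  set d : ℝ := (c : ℝ) - 1 with hd
  have hd0 : 0 ≤ d := by linarith
  have hdc : d + 1 = c := by rw [hd]; ring
  have hr2 : (4 : ℝ) ≤ (r : ℝ) ^ 2 := by nlinarith
  have hB1' : B1 ≤ 5 / 2 * (d * r * x) := by
    rw [hB1]
    have h1 : (0 : ℝ) ≤ d * x := by positivity
    have : d * x * (2 * r + 1) ≤ d * x * (5 / 2 * r) :=
      mul_le_mul_of_nonneg_left (by linarith) h1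
    calc _ ≤ _ := this
      _ = _ := by ring
  have hB2' : B2 ≤ 3 * (d * r * x) := by
    rw [hB2]
    have h1 : (0 : ℝ) ≤ d * r := by positivity
    have : d * r * 4 ≤ d * r * x := mul_le_mul_of_nonneg_left hx4 h1
    nlinarith
  have hdrx : (0 : ℝ) ≤ d * r * x := by positivity
  constructor
  · have h1 : (r : ℝ) * (c + C) ≤ r * (c + 1 + 6 * (d * r * x)) := by
      apply mul_le_mul_of_nonneg_left _ (by positivity)
      rw [hC]
      linarith
    have h2 : (c : ℝ) + 1 + 6 * (d * r * x) ≤ 8 * (c * r * x) := by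
      have e1 : (8 : ℝ) ≤ r * x := by nlinarith
      have e2 : (c : ℝ) * 8 ≤ c * (r * x) := mul_le_mul_of_nonneg_left e1 (by positivity)
      have e3 : d * (r * x) ≤ c * (r * x) := mul_le_mul_of_nonneg_right (by linarith) (by positivity)
      nlinarith
    have h3 : (r : ℝ) * (8 * (c * r * x)) ≤ 8 * (c : ℝ) ^ 2 * (x * (r : ℝ) ^ 4) := by
      have e1 : (1 : ℝ) ≤ c * (r : ℝ) ^ 2 := by nlinarith
      have e2 : (0 : ℝ) ≤ 8 * (c * (r : ℝ) ^ 2 * x) := by positivity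
      have := mul_le_mul_of_nonneg_left e1 e2
      calc (r : ℝ) * (8 * (c * r * x)) = 8 * (c * (r : ℝ) ^ 2 * x) * 1 := by ring
        _ ≤ _ := this
        _ = _ := by ring
    have h4 : (r : ℝ) * (c + 1 + 6 * (d * r * x)) ≤ r * (8 * (c * r * x)) :=
      mul_le_mul_of_nonneg_left h2 (by positivity)
    linarith
  · have h1 : (r : ℝ) ^ 2 * c * B2 ≤ (r : ℝ) ^ 2 * c * (3 * (d * r * x)) :=
      mul_le_mul_of_nonneg_left hB2' (by positivity)
    have h2 : d * r * x ≤ (r : ℝ) ^ 2 * c / 4 * (d * r * x) := by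
      have e1 : (1 : ℝ) ≤ (r : ℝ) ^ 2 * c / 4 := by nlinarith
      have := mul_le_mul_of_nonneg_right e1 hdrx
      linarith
    have h3 : 2 * r * ((r : ℝ) ^ 2 * c * B2 + B1) ≤
        2 * r * ((3 + 5 / 8) * ((r : ℝ) ^ 2 * c * (d * r * x))) := by
      apply mul_le_mul_of_nonneg_left _ (by positivity)
      nlinarith
    have h4 : 2 * r * ((3 + 5 / 8) * ((r : ℝ) ^ 2 * c * (d * r * x))) =
        29 / 4 * (c * d * (x * (r : ℝ) ^ 4)) := by ring
    have hy : (0 : ℝ) < c * (x * (r : ℝ) ^ 4) := by positivity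
    have h5 : 29 / 4 * (c * d * (x * (r : ℝ) ^ 4)) < 8 * (c : ℝ) ^ 2 * (x * (r : ℝ) ^ 4) := by
      have e1 : 29 / 4 * (c * d * (x * (r : ℝ) ^ 4)) = 29 / 4 * d * (c * (x * (r : ℝ) ^ 4)) := by
        ring
      have e2 : 8 * (c : ℝ) ^ 2 * (x * (r : ℝ) ^ 4) = 8 * c * (c * (x * (r : ℝ) ^ 4)) := by ring
      rw [e1, e2]
      apply mul_lt_mul_of_pos_right _ hy
      linarith
    linarith

end Pool.Agent.W934.K
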