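import Pool.Agent.W934.K.Host
import Pool.Agent.W934.K.Num

/-!
# Assembly: the bound for a tight tree with a sorted colouring
-/

set_option autoImplicit false

open Finset

namespace Pool.Agent.W934.K

variable {V : Type*} [DecidableEq V]

/-- leaf facets lie in trunk edges -/
theorem leaf_in_trunk {c t : ℕ} (e : ℕ → Finset ℕ)
    (htr : ∀ x i j, i < t → j < t → x ∈ e i → x ∈ e j → (∀ k, k < c → x ∉ e k) → i = j)
    (v : ℕ → ℕ) (hv : ∀ i ∈ Ico c t, v i ∈ e i ∧ (∀ j, j < i → v i ∉ e j) ∧
      ∃ j, j < i ∧ e i \ {v i} ⊆ e j) :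
    ∀ i, i ∈ Ico c t → ∃ k, k < c ∧ e i \ {v i} ⊆ e k := by
  intro i
  induction i using Nat.strong_induction_on with
  | _ i ih =>
    intro hi
    obtain ⟨h1, h2, j, hj, hsub⟩ := hv i hi
    obtain ⟨hi1, hi2⟩ := mem_Ico.mp hi
    by_cases hjc : j < c
    · exact ⟨j, hjc, hsub⟩
    · have hjm : j ∈ Ico c t := mem_Ico.mpr ⟨by omega, by omega⟩
      obtain ⟨k, hk, hks⟩ := ih j hj hjm
      obtain ⟨g1, g2, _⟩ := hv j hjm
      refine ⟨k, hk, fun x hx => hks ?_⟩
      refine mem_sdiff.mpr ⟨hsub hx, ?_⟩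
      rw [mem_singleton]
      rintro rfl
      have := htr (v j) i j hi2 (by omega) (mem_sdiff.mp hx).1 g1
        (fun k' hk' => g2 k' (by omega))
      omega

set_option maxHeartbeats 1600000 in
theorem core [Fintype V] {r c t K : ℕ} (hr : 2 ≤ r) (hc : 1 ≤ c) (hct : c ≤ t)
    (hK : 8 * c ^ 2 * r ^ (r + 4) ≤ K)
    (e : ℕ → Finset ℕ) (hcard : ∀ i, i < t → (e i).card = r)
    (hprop : ∀ i, 0 < i → i < t →
      ∃ v ∈ e i, (∀ j, j < i → v ∉ e j) ∧ ∃ j, j < i ∧ e i \ {v} ⊆ e j)
    (htr : ∀ x i j, i < t → j < t → x ∈ e i → x ∈ e j → (∀ k, k < c → x ∉ e k) → i = j)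
    (κ : ℕ → Fin r) (hκ : ∀ i, i < t → Set.InjOn κ (e i : Set ℕ))
    (v : ℕ → ℕ) (hv : ∀ i ∈ Ico c t, v i ∈ e i ∧ (∀ j, j < i → v i ∉ e j) ∧
      ∃ j, j < i ∧ e i \ {v i} ⊆ e j)
    (hmono : Monotone (fun q => ((Ico c t).filter (fun i => κ (v i) = q)).card))
    (last : Fin r) (hlast : (last : ℕ) + 1 = r)
    (hbig : t + r * K ≤ r * (c + ((Ico c t).filter (fun i => κ (v i) = last)).card))
    (H : Finset (Finset V)) (hH : ∀ h ∈ H, h.card = r)
    (hfree : ¬ ∃ f : ℕ → V, Set.InjOn f {x : ℕ | ∃ i, i < t ∧ x ∈ e i} ∧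
      ∀ i, i < t → (e i).image f ∈ H) :
    (H.card : ℝ) ≤ ((t : ℝ) - 1) / r * H.shadow.card := by
  classical
  by_contra hcon
  push Not at hcon
  apply hfree
  -- notation
  set b : Fin r → ℕ := fun q => ((Ico c t).filter (fun i => κ (v i) = q)).card with hb
  set g : ℕ → Finset ℕ := fun i => e i \ {v i} with hg
  have hvg : ∀ i, v i ∉ g i := fun i => by simp [hg]
  have hei : ∀ i ∈ Ico c t, e i = insert (v i) (g i) := by
    intro i hi
    rw [hg]
    simp only [sdiff_singleton_eq_erase]
    rw [insert_erase (hv i hi).1]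
  have hgc : ∀ i ∈ Ico c t, (g i).card + 1 = r := by
    intro i hi
    have h1 := hcard i (mem_Ico.mp hi).2
    rw [hei i hi, card_insert_of_notMem (hvg i)] at h1
    exact h1
  choose! kk hkk1 hkk2 using leaf_in_trunk e htr v hv
  set U : Finset ℕ := ((range c).image e).biUnion id with hU
  have htrunk : ∀ i, i < c → e i ⊆ U := fun i hi x hx =>
    mem_biUnion.mpr ⟨e i, mem_image.mpr ⟨i, mem_range.mpr hi, rfl⟩, hx⟩
  obtain ⟨hTT, hTTc⟩ := TT.of_seq e c hc (fun i hi => hcard i (by omega))
    (fun i h0 hi => hprop i h0 (by omega))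
  have hUc : U.card + 1 = r + c := by
    have := hTT.card_union (hcard 0 (by omega))
    rw [hTTc] at this
    exact this
  have hgU : ∀ i ∈ Ico c t, g i ⊆ U := fun i hi => (hkk2 i hi).trans (htrunk _ (hkk1 i hi))
  have hvU : ∀ i ∈ Ico c t, v i ∉ U := by
    intro i hi hm
    obtain ⟨F, hF, hx⟩ := mem_biUnion.mp hm
    obtain ⟨k, hk, rfl⟩ := mem_image.mp hF
    exact (hv i hi).2.1 k (by have := mem_range.mp hk; have := (mem_Ico.mp hi).1; omega) hx
  have hvinj : Set.InjOn v (Ico c t : Finset ℕ) := by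
    intro i hi j hj hij
    have hi' : i ∈ Ico c t := hi
    have hj' : j ∈ Ico c t := hj
    refine htr (v i) i j (mem_Ico.mp hi').2 (mem_Ico.mp hj').2 (hv i hi').1 ?_ ?_
    · rw [hij]
      exact (hv j hj').1
    · intro k hk
      exact (hv i hi').2.1 k (by have := (mem_Ico.mp hi').1; omega)
  have hgeq : ∀ i ∈ Ico c t, g i = (e (kk i)).filter (fun x => κ x ≠ κ (v i)) := by
    intro i hi
    refine facet_eq (hcard _ (by have := hkk1 i hi; omega)) (hκ _ (by have := hkk1 i hi; omega))
      (hgc i hi) (hkk2 i hi) ?_ (hvg i)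
    rw [← hei i hi]
    exact hκ i (mem_Ico.mp hi).2
  -- the last colour facets of trunk edges
  set G : ℕ → Finset ℕ := fun k => (e k).filter (fun x => κ x ≠ last) with hG
  have hGlast : ∀ i ∈ Ico c t, ∀ k, k < c → g i = G k → κ (v i) = last := by
    intro i hi k hk h
    by_contra hne
    obtain ⟨y, hy, hyv⟩ := mem_image.mp (image_univ (hcard k (by omega)) (hκ k (by omega)) ▸
      mem_univ (κ (v i)))
    have hyG : y ∈ G k := mem_filter.mpr ⟨hy, by rw [hyv]; exact hne⟩
    rw [← h] at hyG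
    have hyi : y ∈ e i := by rw [hei i hi]; exact mem_insert_of_mem hyG
    have : y = v i := hκ i (mem_Ico.mp hi).2 hyi (hv i hi).1 hyv
    exact hvg i (this ▸ hyG)
  set L : ℕ → Finset ℕ := fun k => (Ico c t).filter (fun i => g i = G k) with hL
  obtain ⟨ks, hks, hksmax⟩ : ∃ ks ∈ range c, b last ≤ c * (L ks).card := by
    by_contra hall
    push Not at hall
    have h1 : (Ico c t).filter (fun i => κ (v i) = last) ⊆ (range c).biUnion L := by
      intro i hi
      obtain ⟨hi1, hi2⟩ := mem_filter.mp hi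
      refine mem_biUnion.mpr ⟨kk i, mem_range.mpr (hkk1 i hi1), mem_filter.mpr ⟨hi1, ?_⟩⟩
      rw [hgeq i hi1, hi2]
    have h2 : b last ≤ ∑ k ∈ range c, (L k).card := (card_le_card h1).trans card_biUnion_le
    have h3 : ∑ k ∈ range c, (c * (L k).card) < ∑ k ∈ range c, b last :=
      sum_lt_sum_of_nonempty ⟨0, mem_range.mpr hc⟩ hall
    rw [← mul_sum, sum_const, card_range, smul_eq_mul] at h3
    exact absurd (Nat.mul_le_mul_left c h2) (not_le.mpr h3)
  have hksc : ks < c := mem_range.mp hks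
  set ℓ : ℕ := (L ks).card with hℓ
  have hLsub : L ks ⊆ Ico c t := filter_subset _ _
  have hIco : (Ico c t).card = t - c := Nat.card_Ico c t
  have hℓle : ℓ ≤ t - c := by rw [← hIco]; exact card_le_card hLsub
  -- thresholds
  set th : Fin r → ℕ := fun q => if q = last then t - ℓ else
    c + ((Ico c t).filter (fun i => κ (v i) ≤ q)).card with hth
  have hnotL : ((Ico c t).filter (fun i => ¬ g i = G ks)).card + ℓ = t - c := by
    rw [← hIco, hℓ, add_comm]
    exact card_filter_add_card_filter_not _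
  have hlastle : ∀ i : Fin r, i ≤ last := by
    intro i
    rw [Fin.le_def]
    have := i.isLt
    omega
  have hthl : th last = t - ℓ := by simp [hth]
  have hthτ : ∀ q, th q ≤ t - ℓ := by
    intro q
    by_cases hq : q = last
    · rw [hq, hthl]
    · simp only [hth, if_neg hq]
      have : (Ico c t).filter (fun i => κ (v i) ≤ q) ⊆
          (Ico c t).filter (fun i => ¬ g i = G ks) := by
        intro i hi
        obtain ⟨hi1, hi2⟩ := mem_filter.mp hi
        refine mem_filter.mpr ⟨hi1, fun h => ?_⟩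
        have h3 := hGlast i hi1 ks hksc h
        rw [h3] at hi2
        exact hq (le_antisymm (hlastle q) hi2)
      have := card_le_card this
      omega
  -- numerics
  set B1 : ℝ := ((c : ℝ) - 1) * (r : ℝ) ^ r * (2 * r + 1) with hB1
  set B2 : ℝ := 2 * r * ((c : ℝ) - 1) + B1 with hB2
  set C : ℝ := 2 * B2 + 1 with hC
  set β : ℝ := ((t : ℝ) - 1) / r with hβ
  obtain ⟨hn1, hn2⟩ := numerics K hr hc hK B1 B2 C hB1 hB2 hC
  have hrR : (2 : ℝ) ≤ r := by exact_mod_cast hr
  have hcR : (1 : ℝ) ≤ c := by exact_mod_cast hc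
  have hbigR : (t : ℝ) + r * K ≤ r * (c + b last) := by exact_mod_cast hbig
  have hblast : b last ≤ t - c := by
    rw [← hIco]
    exact card_le_card (filter_subset _ _)
  have hblastR : (b last : ℝ) + c ≤ t := by
    have : b last + c ≤ t := by omega
    exact_mod_cast this
  have htK : (K : ℝ) + 1 ≤ t := by
    have h1 : (r : ℝ) * (c + b last) ≤ r * t := mul_le_mul_of_nonneg_left (by linarith) (by linarith)
    have h2 : (r : ℝ) * K < r * t := by
      have : (1 : ℝ) ≤ t := by linarith [Nat.cast_nonneg (α := ℝ) (b last)]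
      linarith
    have h3 : (K : ℝ) < t := lt_of_mul_lt_mul_left h2 (by linarith)
    have h4 : K < t := by exact_mod_cast h3
    exact_mod_cast h4
  have hβbig : 2 * ((r : ℝ) ^ 2 * c * B2 + B1) < β := by
    rw [hβ, lt_div_iff₀ (by linarith)]
    linarith
  have hKc : (c : ℝ) ≤ K := by
    have hcc : c ≤ K := by
      refine le_trans ?_ hK
      have h1 : 1 ≤ 8 * c * r ^ (r + 4) := by
        have : 0 < r ^ (r + 4) := Nat.pow_pos (by omega)
        have : 0 < 8 * c * r ^ (r + 4) := by positivity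
        omega
      calc c = c * 1 := (mul_one c).symm
        _ ≤ c * (8 * c * r ^ (r + 4)) := Nat.mul_le_mul_left c h1
        _ = 8 * c ^ 2 * r ^ (r + 4) := by ring
    exact_mod_cast hcc
  have htℓ : (t : ℝ) ≤ r * c * ℓ := by
    have h1 : (b last : ℝ) ≤ c * ℓ := by exact_mod_cast hksmax
    have h2 : (r : ℝ) * b last ≤ r * (c * ℓ) := mul_le_mul_of_nonneg_left h1 (by linarith)
    have h3 : (r : ℝ) * c ≤ r * K := mul_le_mul_of_nonneg_left hKc (by linarith)
    have h4 : (r : ℝ) * (c + b last) = r * c + r * b last := by ring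
    have h5 : (r : ℝ) * (c * ℓ) = r * c * ℓ := by ring
    linarith
  have hthC : ∀ i, i ≠ last → (th i : ℝ) - 1 ≤ ((i : ℕ) + 1) * (β - C) := by
    intro q hq
    have hql : q < last := lt_of_le_of_ne (hlastle q) hq
    simp only [hth, if_neg hq]
    have h1 : ((Ico c t).filter (fun i => κ (v i) ≤ q)).card = ∑ j ∈ Iic q, b j := by
      rw [card_eq_sum_card_fiberwise (f := fun i => κ (v i)) (t := Iic q)]
      · apply sum_congr rfl
        intro j hj
        rw [hb]
        simp only
        congr 1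
        ext i
        simp only [mem_filter]
        constructor
        · rintro ⟨⟨h1, h2⟩, h3⟩
          exact ⟨h1, h3⟩
        · rintro ⟨h1, h3⟩
          exact ⟨⟨h1, h3 ▸ mem_Iic.mp hj⟩, h3⟩
      · intro i hi
        simp only [coe_filter, Set.mem_setOf_eq] at hi
        simp only [coe_Iic, Set.mem_Iic]
        exact hi.2
    have h2 : (Ico c t).card = ∑ j, b j := by
      rw [card_eq_sum_card_fiberwise (f := fun i => κ (v i)) (t := univ)]
      intro i hi
      simp
    have h3 : (∑ j, (b j : ℝ)) = (t : ℝ) - c := by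
      rw [hIco] at h2
      have : ∑ j, b j + c = t := by omega
      have : ((∑ j, b j : ℕ) : ℝ) + c = t := by exact_mod_cast this
      push_cast at this
      linarith
    have h4 := prefix_avg b hmono last hlast q hql
    rw [h3] at h4
    rw [h1]
    push_cast
    set s : ℝ := ∑ j ∈ Iic q, (b j : ℝ) with hs
    set m : ℝ := ((q : ℕ) : ℝ) + 1 with hm
    have hm1 : 1 ≤ m := by rw [hm]; linarith [Nat.cast_nonneg (α := ℝ) (q : ℕ)]
    -- r (r-1) s ≤ m ((r-1) t - r K)
    have h5 : (r : ℝ) * (((r : ℝ) - 1) * s) ≤ m * (((r : ℝ) - 1) * t - r * K) := by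
      calc (r : ℝ) * (((r : ℝ) - 1) * s) ≤ r * (m * (t - c - b last)) :=
            mul_le_mul_of_nonneg_left h4 (by linarith)
        _ = m * (r * t - r * (c + b last)) := by ring
        _ ≤ m * (r * t - (t + r * K)) := by
            apply mul_le_mul_of_nonneg_left _ (by linarith)
            linarith
        _ = _ := by ring
    -- target
    have hr1 : 0 < (r : ℝ) - 1 := by linarith
    have h6 : ((r : ℝ) - 1) * (c + C) ≤ K := by
      have hcC : 0 ≤ (c : ℝ) + C := by
        have : 0 ≤ B1 := by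
          rw [hB1]
          have : (0 : ℝ) ≤ (c : ℝ) - 1 := by linarith
          positivity
        have : 0 ≤ B2 := by
          rw [hB2]
          have : (0 : ℝ) ≤ (c : ℝ) - 1 := by linarith
          positivity
        linarith
      have : ((r : ℝ) - 1) * (c + C) ≤ r * (c + C) := mul_le_mul_of_nonneg_right (by linarith) hcC
      linarith
    have h7 : (r : ℝ) * ((r : ℝ) - 1) * ((c : ℝ) + s - 1) ≤
        r * ((r : ℝ) - 1) * (m * (β - C)) := by
      have e1 : (r : ℝ) * β = t - 1 := by
        rw [hβ]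
        field_simp
      have e2 : (r : ℝ) * ((r : ℝ) - 1) * (m * (β - C)) =
          m * (((r : ℝ) - 1) * (t - 1) - r * (((r : ℝ) - 1) * C)) := by
        calc (r : ℝ) * ((r : ℝ) - 1) * (m * (β - C))
            = m * (((r : ℝ) - 1) * (r * β) - r * (((r : ℝ) - 1) * C)) := by ring
          _ = _ := by rw [e1]
      rw [e2]
      have e3 : (r : ℝ) * ((r : ℝ) - 1) * ((c : ℝ) + s - 1) =
          r * (((r : ℝ) - 1) * s) + r * ((r : ℝ) - 1) * ((c : ℝ) - 1) := by ring
      rw [e3]
      have e4 : r * ((r : ℝ) - 1) * ((c : ℝ) - 1) ≤ m * (r * ((r : ℝ) - 1) * ((c : ℝ) - 1)) := by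
        have : 0 ≤ r * ((r : ℝ) - 1) * ((c : ℝ) - 1) :=
          mul_nonneg (mul_nonneg (by linarith) hr1.le) (by linarith)
        have := mul_le_mul_of_nonneg_right hm1 this
        linarith
      have e5 : ((r : ℝ) - 1) + r * (((r : ℝ) - 1) * C) + r * ((r : ℝ) - 1) * ((c : ℝ) - 1)
          ≤ r * K := by
        have := mul_le_mul_of_nonneg_left h6 (show (0 : ℝ) ≤ r by linarith)
        have i1 : (r : ℝ) * (((r : ℝ) - 1) * (c + C)) = r * (((r : ℝ) - 1) * C) +
          r * ((r : ℝ) - 1) * ((c : ℝ) - 1) + r * ((r : ℝ) - 1) := by ring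
        have i2 : ((r : ℝ) - 1) ≤ r * ((r : ℝ) - 1) := by nlinarith
        linarith
      have e6 := mul_le_mul_of_nonneg_left e5 (show (0 : ℝ) ≤ m by linarith)
      have e7 : m * (((r : ℝ) - 1) * (t - 1) - r * (((r : ℝ) - 1) * C)) =
          m * (((r : ℝ) - 1) * t - r * K) + m * (r * K) -
          m * (((r : ℝ) - 1) + r * (((r : ℝ) - 1) * C) + r * ((r : ℝ) - 1) * ((c : ℝ) - 1))
          + m * (r * ((r : ℝ) - 1) * ((c : ℝ) - 1)) := by ring
      rw [e7]
      linarith
    have h8 := le_of_mul_le_mul_left h7 (by positivity)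
    linarith
  -- the host
  obtain ⟨R, p0, hp0, hRinj, hRH, hRext, hRth, hRtop⟩ :=
    host (τ := t - ℓ) (ℓ := ℓ) hr hc (by omega) th last hlastle hthl hthτ B1 B2 C β hB1 hB2 hC hβ
      htℓ hβbig hthC H hH hcon
  -- embedding of the trunk
  have hrer : TT (e ks) ((range c).image e) :=
    hTT.reroot (e ks) (mem_image.mpr ⟨ks, hks, rfl⟩)
  obtain ⟨φ, hφinj, hφR, hφ0⟩ := embed_trunk R hRinj hRext κ p0 hp0 hrer
    (by
      intro F hF
      obtain ⟨k, hk, rfl⟩ := mem_image.mp hF
      exact hcard k (by have := mem_range.mp hk; omega))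
    (by
      intro F hF
      obtain ⟨k, hk, rfl⟩ := mem_image.mp hF
      exact hκ k (by have := mem_range.mp hk; omega))
    hTTc.le
  have hφk : ∀ k, k < c → ∃ p ∈ R, ∀ x ∈ e k, φ x = p (κ x) := fun k hk =>
    hφR (e k) (mem_image.mpr ⟨k, mem_range.mpr hk, rfl⟩)
  refine attach H hH e U hUc htrunk v g hgc hgU hvU hvinj hei φ hφinj ?_
    (fun i => if g i = G ks then r else (κ (v i) : ℕ)) ?_
  · intro k hk
    obtain ⟨p, hp, hpe⟩ := hφk k hk
    have : (e k).image φ = im p := by
      ext w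
      simp only [mem_image, im, mem_univ, true_and]
      constructor
      · rintro ⟨x, hx, rfl⟩
        exact ⟨κ x, (hpe x hx).symm⟩
      · rintro ⟨j, rfl⟩
        obtain ⟨x, hx, hxj⟩ := mem_image.mp
          (image_univ (hcard k (by omega)) (hκ k (by omega)) ▸ mem_univ j)
        exact ⟨x, hx, by rw [hpe x hx, hxj]⟩
    rw [this]
    exact hRH p hp
  · intro i hi
    by_cases hgi : g i = G ks
    · simp only [hgi, if_true]
      have h1 : (G ks).image φ = (im p0).erase (p0 last) :=
        facet_image (hcard ks (by omega)) (hκ ks (by omega)) (hRinj p0 hp0) hφ0 last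
      rw [h1]
      refine le_trans ?_ hRtop
      have : ((Ico c t).filter
          (fun j => (if g j = G ks then r else (κ (v j) : ℕ)) ≤ r)).card ≤ t - c := by
        rw [← hIco]
        exact card_le_card (filter_subset _ _)
      omega
    · simp only [hgi, if_false]
      obtain ⟨p, hp, hpe⟩ := hφk (kk i) (hkk1 i hi)
      have h1 : (g i).image φ = (im p).erase (p (κ (v i))) := by
        rw [hgeq i hi]
        exact facet_image (hcard _ (by have := hkk1 i hi; omega))
          (hκ _ (by have := hkk1 i hi; omega)) (hRinj p hp) hpe _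
      rw [h1]
      refine le_trans ?_ (hRth p hp (κ (v i)))
      by_cases hl : κ (v i) = last
      · rw [hl, hthl]
        have : ((Ico c t).filter
            (fun j => (if g j = G ks then r else (κ (v j) : ℕ)) ≤ (last : ℕ))) ⊆
            (Ico c t).filter (fun j => ¬ g j = G ks) := by
          intro j hj
          obtain ⟨hj1, hj2⟩ := mem_filter.mp hj
          refine mem_filter.mpr ⟨hj1, fun h => ?_⟩
          rw [if_pos h] at hj2
          omega
        have := card_le_card this
        omega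
      · simp only [hth, if_neg hl]
        apply Nat.add_le_add_left
        apply card_le_card
        intro j hj
        obtain ⟨hj1, hj2⟩ := mem_filter.mp hj
        refine mem_filter.mpr ⟨hj1, ?_⟩
        by_cases h : g j = G ks
        · rw [if_pos h] at hj2
          have := (κ (v i)).isLt
          omega
        · rw [if_neg h] at hj2
          exact hj2

end Pool.Agent.W934.K
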