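import Pool.Agent.W934.K.Tree

/-!
# Embedding the trunk and attaching the leaves
-/

set_option autoImplicit false

open Finset

namespace Pool.Agent.W934.K

variable {V : Type*} [DecidableEq V]

/-- Embedding of a tight tree with at most `c` edges in a family of labelled edges in which every
labelled facet has at least `c` extensions. -/
theorem embed_trunk {r c : ℕ} (R : Set (Fin r → V))
    (hinj : ∀ p ∈ R, Function.Injective p)
    (hext : ∀ p ∈ R, ∀ i, ∃ W : Finset V, c ≤ W.card ∧ ∀ w ∈ W, Function.update p i w ∈ R)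
    (κ : ℕ → Fin r) (p0 : Fin r → V) (hp0 : p0 ∈ R) {E : Finset ℕ} {S : Finset (Finset ℕ)}
    (h : TT E S) : (∀ F ∈ S, F.card = r) → (∀ F ∈ S, Set.InjOn κ (F : Set ℕ)) → S.card ≤ c →
    ∃ φ : ℕ → V, Set.InjOn φ (S.biUnion id : Finset ℕ) ∧
      (∀ F ∈ S, ∃ p ∈ R, ∀ x ∈ F, φ x = p (κ x)) ∧ (∀ x ∈ E, φ x = p0 (κ x)) := by
  induction h with
  | single =>
    intro hr hκ _
    refine ⟨fun x => p0 (κ x), ?_, ?_, fun x _ => rfl⟩
    · simp only [singleton_biUnion, id]
      intro x hx y hy hxy
      exact hκ E (by simp) hx hy (hinj p0 hp0 hxy)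
    · intro F hF
      exact ⟨p0, hp0, fun x _ => rfl⟩
  | @add S F x v h hF hx hv ih =>
    intro hr hκ hc
    have hnot : insert v (F.erase x) ∉ S := TT.new_edge_notMem hv
    rw [card_insert_of_notMem hnot] at hc
    obtain ⟨φ, h1, h2, h3⟩ := ih (fun F' hF' => hr F' (mem_insert_of_mem hF'))
      (fun F' hF' => hκ F' (mem_insert_of_mem hF')) (by omega)
    obtain ⟨p, hp, hpF⟩ := h2 F hF
    have hFr : F.card = r := hr F (mem_insert_of_mem hF)
    have hκF := hκ F (mem_insert_of_mem hF)
    have hκG := hκ _ (mem_insert_self (insert v (F.erase x)) S)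
    have hvF : v ∉ F := fun hm => hv (mem_biUnion.mpr ⟨F, hF, hm⟩)
    have hκv : κ v = κ x := by
      have himg : F.image κ = univ := by
        apply eq_univ_of_card
        rw [card_image_of_injOn hκF, hFr, Fintype.card_fin]
      obtain ⟨y, hy, hyv⟩ := mem_image.mp (himg ▸ mem_univ (κ v))
      by_cases hyx : y = x
      · rw [← hyv, hyx]
      · exfalso
        have : y = v := hκG (by simp [hyx, hy]) (by simp) hyv
        exact hvF (this ▸ hy)
    obtain ⟨W, hW, hWR⟩ := hext p hp (κ x)
    set U : Finset ℕ := S.biUnion id with hU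
    have hFU : F ⊆ U := fun y hy => mem_biUnion.mpr ⟨F, hF, hy⟩
    have hEr : E.card = r := hr E (mem_insert_of_mem h.root_mem)
    have hUcard : U.card + 1 = r + S.card := h.card_union hEr
    have hused : ((U \ F.erase x).image φ).card ≤ S.card := by
      refine card_image_le.trans ?_
      rw [card_sdiff_of_subset ((erase_subset _ _).trans hFU), card_erase_of_mem hx, hFr]
      have : 1 ≤ r := by rw [← hFr]; exact card_pos.mpr ⟨x, hx⟩
      omega
    obtain ⟨w, hwW, hwU⟩ : ∃ w ∈ W, w ∉ (U \ F.erase x).image φ := by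
      by_contra hcon
      push Not at hcon
      have := card_le_card (show W ⊆ (U \ F.erase x).image φ from hcon)
      omega
    have hwR := hWR w hwW
    have hwφ : ∀ y ∈ U, φ y ≠ w := by
      intro y hy hyw
      by_cases hyF : y ∈ F.erase x
      · have hyF' := mem_of_mem_erase hyF
        have hne : κ y ≠ κ x := fun h' => (ne_of_mem_erase hyF) (hκF hyF' hx h')
        have e1 : Function.update p (κ x) w (κ y) = Function.update p (κ x) w (κ x) := by
          rw [Function.update_of_ne hne, Function.update_self, ← hpF y hyF', hyw]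
        exact hne (hinj _ hwR e1)
      · exact hwU (mem_image.mpr ⟨y, mem_sdiff.mpr ⟨hy, hyF⟩, hyw⟩)
    have hagree : ∀ y, y ≠ v → Function.update φ v w y = φ y := fun y hy =>
      Function.update_of_ne hy _ _
    have hneU : ∀ y ∈ U, y ≠ v := fun y hy hyv => hv (hyv ▸ hy)
    have e1 : (insert (insert v (F.erase x)) S).biUnion id = insert v U := by
      ext y
      simp only [mem_biUnion, mem_insert, id, hU]
      constructor
      · rintro ⟨G, rfl | hG, hy⟩
        · rcases mem_insert.mp hy with rfl | hy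
          · exact Or.inl rfl
          · exact Or.inr ⟨F, hF, mem_of_mem_erase hy⟩
        · exact Or.inr ⟨G, hG, hy⟩
      · rintro (rfl | ⟨G, hG, hy⟩)
        · exact ⟨_, Or.inl rfl, mem_insert_self _ _⟩
        · exact ⟨G, Or.inr hG, hy⟩
    refine ⟨Function.update φ v w, ?_, ?_, ?_⟩
    · rw [e1, coe_insert]
      intro y hy z hz hyz
      rcases hy with rfl | hy
      · rcases hz with rfl | hz
        · rfl
        · rw [Function.update_self, hagree z (hneU z hz)] at hyz
          exact absurd hyz.symm (hwφ z hz)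
      · rcases hz with rfl | hz
        · rw [Function.update_self, hagree y (hneU y hy)] at hyz
          exact absurd hyz (hwφ y hy)
        · rw [hagree y (hneU y hy), hagree z (hneU z hz)] at hyz
          exact h1 hy hz hyz
    · intro G hG
      rcases mem_insert.mp hG with rfl | hG
      · refine ⟨_, hwR, ?_⟩
        intro y hy
        rcases mem_insert.mp hy with rfl | hy
        · rw [Function.update_self, hκv, Function.update_self]
        · have hyF' := mem_of_mem_erase hy
          have hne : κ y ≠ κ x := fun h' => (ne_of_mem_erase hy) (hκF hyF' hx h')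
          rw [hagree y (hneU y (hFU hyF')), Function.update_of_ne hne]
          exact hpF y hyF'
      · obtain ⟨q, hq, hqG⟩ := h2 G hG
        refine ⟨q, hq, fun y hy => ?_⟩
        rw [hagree y (hneU y (mem_biUnion.mpr ⟨G, hG, hy⟩))]
        exact hqG y hy
    · intro y hy
      rw [hagree y (hneU y (mem_biUnion.mpr ⟨E, h.root_mem, hy⟩))]
      exact h3 y hy

/-- the degree of a vertex set -/
def dg (H : Finset (Finset V)) (g : Finset V) : ℕ := (H.filter (fun e => g ⊆ e)).card

/-- the vertices that complete `g` to an edge -/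
def nb (H : Finset (Finset V)) (g : Finset V) : Finset V :=
  (H.biUnion id).filter (fun w => w ∉ g ∧ insert w g ∈ H)

theorem card_nb {r : ℕ} (H : Finset (Finset V)) (hH : ∀ e ∈ H, e.card = r) (g : Finset V)
    (hg : g.card + 1 = r) : (nb H g).card = dg H g := by
  unfold dg
  apply card_bij (fun w _ => insert w g)
  · intro w hw
    exact mem_filter.mpr ⟨(mem_filter.mp hw).2.2, subset_insert _ _⟩
  · intro w hw w' hw' heq
    have hw1 := (mem_filter.mp hw).2.1
    have : w ∈ insert w' g := heq ▸ mem_insert_self w g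
    rcases mem_insert.mp this with h | h
    · exact h
    · exact absurd h hw1
  · intro e he
    obtain ⟨he1, he2⟩ := mem_filter.mp he
    obtain ⟨w, hw, hwe⟩ := exists_eq_insert_iff.mpr ⟨he2, by rw [hH e he1, hg]⟩
    refine ⟨w, mem_filter.mpr ⟨mem_biUnion.mpr ⟨e, he1, ?_⟩, hw, hwe ▸ he1⟩, hwe⟩
    rw [← hwe]
    exact mem_insert_self _ _

/-- Attaching the leaves. -/
theorem attach {r c t : ℕ} (H : Finset (Finset V)) (hH : ∀ e ∈ H, e.card = r)
    (e : ℕ → Finset ℕ) (U : Finset ℕ) (hU : U.card + 1 = r + c)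
    (htrunk : ∀ i, i < c → e i ⊆ U) (v : ℕ → ℕ) (g : ℕ → Finset ℕ)
    (hgc : ∀ i ∈ Ico c t, (g i).card + 1 = r) (hgU : ∀ i ∈ Ico c t, g i ⊆ U)
    (hvU : ∀ i ∈ Ico c t, v i ∉ U) (hvinj : Set.InjOn v (Ico c t : Finset ℕ))
    (hei : ∀ i ∈ Ico c t, e i = insert (v i) (g i))
    (φ : ℕ → V) (hφ : Set.InjOn φ U) (hφH : ∀ i, i < c → (e i).image φ ∈ H)
    (grp : ℕ → ℕ)
    (hdeg : ∀ i ∈ Ico c t, c + ((Ico c t).filter (fun j => grp j ≤ grp i)).card
      ≤ dg H ((g i).image φ)) :
    ∃ f : ℕ → V, Set.InjOn f {x : ℕ | ∃ i, i < t ∧ x ∈ e i} ∧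
      ∀ i, i < t → (e i).image f ∈ H := by
  classical
  let cand : {i // i ∈ Ico c t} → Finset V := fun i => nb H ((g i.1).image φ) \ U.image φ
  have hcand : ∀ i : {i // i ∈ Ico c t},
      ((Ico c t).filter (fun j => grp j ≤ grp i.1)).card ≤ (cand i).card := by
    rintro ⟨i, hi⟩
    show ((Ico c t).filter (fun j => grp j ≤ grp i)).card ≤ (cand ⟨i, hi⟩).card
    have hgi : ((g i).image φ).card + 1 = r := by
      rw [card_image_of_injOn (hφ.mono (by exact_mod_cast hgU i hi))]
      exact hgc i hi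
    have h1 := card_nb H hH _ hgi
    have h2 : nb H ((g i).image φ) \ (U \ g i).image φ ⊆ cand ⟨i, hi⟩ := by
      intro w hw
      obtain ⟨hw1, hw2⟩ := mem_sdiff.mp hw
      refine mem_sdiff.mpr ⟨hw1, ?_⟩
      intro hwU
      obtain ⟨y, hy, hyw⟩ := mem_image.mp hwU
      by_cases hyg : y ∈ g i
      · exact (mem_filter.mp hw1).2.1 (mem_image.mpr ⟨y, hyg, hyw⟩)
      · exact hw2 (mem_image.mpr ⟨y, mem_sdiff.mpr ⟨hy, hyg⟩, hyw⟩)
    have h3 : ((U \ g i).image φ).card ≤ c := by
      refine card_image_le.trans ?_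
      rw [card_sdiff_of_subset (hgU i hi)]
      have := hgc i hi
      omega
    have h4 := card_le_card h2
    have h5 := le_card_sdiff ((U \ g i).image φ) (nb H ((g i).image φ))
    have h6 := hdeg i hi
    omega
  have hall : ∀ s : Finset {i // i ∈ Ico c t}, s.card ≤ (s.biUnion cand).card := by
    intro s
    rcases s.eq_empty_or_nonempty with rfl | hs
    · simp
    · obtain ⟨i, his, hmax⟩ := exists_max_image s (fun i => grp i.1) hs
      calc s.card = (s.map ⟨Subtype.val, Subtype.val_injective⟩).card := (card_map _).symm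
        _ ≤ ((Ico c t).filter (fun j => grp j ≤ grp i.1)).card := by
          apply card_le_card
          intro j hj
          obtain ⟨j', hj', rfl⟩ := mem_map.mp hj
          exact mem_filter.mpr ⟨j'.2, hmax j' hj'⟩
        _ ≤ (cand i).card := hcand i
        _ ≤ (s.biUnion cand).card := card_le_card (subset_biUnion_of_mem cand his)
  obtain ⟨w, hwinj, hw⟩ := (all_card_le_biUnion_card_iff_exists_injective cand).mp hall
  let f : ℕ → V := fun x => if hx : ∃ i : {i // i ∈ Ico c t}, v i.1 = x then w hx.choose else φ x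
  have hfU : ∀ x ∈ U, f x = φ x := by
    intro x hx
    have : ¬ ∃ i : {i // i ∈ Ico c t}, v i.1 = x := by
      rintro ⟨i, hi⟩
      exact hvU i.1 i.2 (hi ▸ hx)
    simp only [f, this, dif_neg, not_false_eq_true]
  have hfv : ∀ (i : ℕ) (hi : i ∈ Ico c t), f (v i) = w ⟨i, hi⟩ := by
    intro i hi
    have hx : ∃ i' : {i // i ∈ Ico c t}, v i'.1 = v i := ⟨⟨i, hi⟩, rfl⟩
    simp only [f, hx, dif_pos]
    congr 1
    apply Subtype.ext
    exact hvinj hx.choose.2 hi hx.choose_spec
  have hwU : ∀ (i : {i // i ∈ Ico c t}) (x : ℕ), x ∈ U → φ x ≠ w i := by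
    intro i x hx heq
    exact (mem_sdiff.mp (hw i)).2 (mem_image.mpr ⟨x, hx, heq⟩)
  have hmem : ∀ x, (∃ i, i < t ∧ x ∈ e i) → x ∈ U ∨ ∃ i, i ∈ Ico c t ∧ x = v i := by
    rintro x ⟨i, hit, hxi⟩
    by_cases hic : i < c
    · exact Or.inl (htrunk i hic hxi)
    · have hi : i ∈ Ico c t := mem_Ico.mpr ⟨by omega, hit⟩
      rw [hei i hi] at hxi
      rcases mem_insert.mp hxi with h | h
      · exact Or.inr ⟨i, hi, h⟩
      · exact Or.inl (hgU i hi h)
  refine ⟨f, ?_, ?_⟩
  · intro x hx y hy hxy
    rcases hmem x hx with hx | ⟨i, hi, rfl⟩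
    · rcases hmem y hy with hy | ⟨j, hj, rfl⟩
      · rw [hfU x hx, hfU y hy] at hxy
        exact hφ hx hy hxy
      · rw [hfU x hx, hfv j hj] at hxy
        exact absurd hxy (hwU _ x hx)
    · rcases hmem y hy with hy | ⟨j, hj, rfl⟩
      · rw [hfU y hy, hfv i hi] at hxy
        exact absurd hxy.symm (hwU _ y hy)
      · rw [hfv i hi, hfv j hj] at hxy
        have := hwinj hxy
        rw [Subtype.mk.injEq] at this
        rw [this]
  · intro i hit
    by_cases hic : i < c
    · have : (e i).image f = (e i).image φ :=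
        image_congr (fun x hx => hfU x (htrunk i hic hx))
      rw [this]
      exact hφH i hic
    · have hi : i ∈ Ico c t := mem_Ico.mpr ⟨by omega, hit⟩
      have h1 : (g i).image f = (g i).image φ :=
        image_congr (fun x hx => hfU x (hgU i hi hx))
      rw [hei i hi, image_insert, hfv i hi, h1]
      exact (mem_filter.mp (mem_sdiff.mp (hw ⟨i, hi⟩)).1).2.2

end Pool.Agent.W934.K
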