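import Pool.Agent.W934.K.Wt

/-!
# The host hypergraph
-/

set_option autoImplicit false

open Finset

namespace Pool.Agent.W934.K

variable {V : Type*} [DecidableEq V]

/-- extensions inside a family of edges -/
theorem ext_of_edges {r c : ℕ} {F : Finset (Finset V)} (hF : ∀ e ∈ F, e.card = r)
    {p : Fin r → V} (hp : Function.Injective p) (i : Fin r)
    (h : c ≤ (F.filter (fun e' => (im p).erase (p i) ∈ sub e')).card) :
    ∃ W : Finset V, c ≤ W.card ∧ ∀ w ∈ W, Function.Injective (Function.update p i w) ∧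
      im (Function.update p i w) ∈ F := by
  have hr : 0 < r := i.pos
  have hg : ((im p).erase (p i)).card + 1 = r := by
    rw [card_erase_of_mem (mem_im p i), card_im hp]
    omega
  refine ⟨nb F ((im p).erase (p i)), ?_, ?_⟩
  · rw [card_nb F hF _ hg]
    refine h.trans (card_le_card ?_)
    intro e' he'
    obtain ⟨h1, h2⟩ := mem_filter.mp he'
    exact mem_filter.mpr ⟨h1, (mem_sub_iff (hF e' h1) hg).mp h2⟩
  · intro w hw
    obtain ⟨_, h1, h2⟩ := mem_filter.mp hw
    exact ⟨update_inj hp i h1, by rw [im_update hp]; exact h2⟩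

theorem real_contra {r c t ℓ : ℕ} (hr : 2 ≤ r) (hc : 1 ≤ c) (B1 B2 C β : ℝ)
    (hB1 : B1 = ((c : ℝ) - 1) * (r : ℝ) ^ r * (2 * r + 1))
    (hB2 : B2 = 2 * r * ((c : ℝ) - 1) + B1) (hC : C = 2 * B2 + 1)
    (hβ : β = ((t : ℝ) - 1) / r)
    (ht : (t : ℝ) ≤ r * c * ℓ)
    (hβbig : 2 * ((r : ℝ) ^ 2 * c * B2 + B1) < β)
    (n z f x3 x4 x5 : ℝ) (hn : 0 ≤ n) (hz : 0 ≤ z) (hx3 : 0 ≤ x3) (hx5 : 0 ≤ x5)
    (h1 : f ≤ ((c : ℝ) - 1) * z)
    (h2 : β * (n + z) < x3 + x4 + x5 + f)
    (h3 : x3 + x4 + x5 ≤ ((t : ℝ) - 1) * n)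
    (h4 : 0 < f - (ℓ : ℝ) / (r * t) * x3 + x4 - C / β * x5)
    (h5 : x4 ≤ ((c : ℝ) - 1) * (r : ℝ) ^ r * (n + z)) : False := by
  have hrR : (2 : ℝ) ≤ r := by exact_mod_cast hr
  have hcR : (1 : ℝ) ≤ c := by exact_mod_cast hc
  have hc0 : (0 : ℝ) ≤ (c : ℝ) - 1 := by linarith
  have hrr : (1 : ℝ) ≤ (r : ℝ) ^ r := one_le_pow₀ (by linarith)
  have hB1' : 0 ≤ B1 := by rw [hB1]; positivity
  have hB2' : 0 ≤ B2 := by
    rw [hB2]
    have : 0 ≤ 2 * (r : ℝ) * ((c : ℝ) - 1) := by positivity
    linarith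
  have hC0 : 1 ≤ C := by linarith
  have hB2c : 2 * (r : ℝ) * ((c : ℝ) - 1) ≤ B2 := by linarith
  have hβ0 : 0 < β := by
    have : 0 ≤ 2 * ((r : ℝ) ^ 2 * c * B2 + B1) := by positivity
    linarith
  have ht1 : (t : ℝ) - 1 = r * β := by
    rw [hβ]
    field_simp
  have ht0 : (0 : ℝ) < t := by
    have : 0 < (r : ℝ) * β := by positivity
    linarith
  have hℓ0 : (0 : ℝ) < ℓ := by
    by_contra hcon
    push Not at hcon
    have : (r : ℝ) * c * ℓ ≤ 0 := mul_nonpos_of_nonneg_of_nonpos (by positivity) hcon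
    linarith
  -- c - 1 ≤ β / 2
  have hcβ : 2 * ((c : ℝ) - 1) ≤ β := by
    have e1 : 2 * (r : ℝ) * ((c : ℝ) - 1) ≤ (r : ℝ) ^ 2 * c * B2 := by
      calc 2 * (r : ℝ) * ((c : ℝ) - 1) ≤ B2 := hB2c
        _ = 1 * B2 := by ring
        _ ≤ (r : ℝ) ^ 2 * c * B2 := by
          apply mul_le_mul_of_nonneg_right _ hB2'
          have : (1 : ℝ) ≤ (r : ℝ) ^ 2 := one_le_pow₀ (by linarith)
          have h' : (1 : ℝ) * 1 ≤ (r : ℝ) ^ 2 * c := mul_le_mul this hcR zero_le_one (by positivity)
          linarith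
    have e2 : 2 * ((c : ℝ) - 1) ≤ r * (2 * ((c : ℝ) - 1)) := by
      have : (1 : ℝ) * (2 * ((c : ℝ) - 1)) ≤ r * (2 * ((c : ℝ) - 1)) :=
        mul_le_mul_of_nonneg_right (by linarith) (by linarith)
      linarith
    have e3 : (r : ℝ) * (2 * ((c : ℝ) - 1)) = 2 * r * ((c : ℝ) - 1) := by ring
    linarith
  -- z ≤ 2 r n
  have hz2 : z ≤ 2 * r * n := by
    have e1 : (β - ((c : ℝ) - 1)) * z < (r - 1) * β * n := by
      rw [ht1] at h3
      have i1 : (β - ((c : ℝ) - 1)) * z = β * (n + z) - ((c : ℝ) - 1) * z - β * n := by ring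
      have i2 : ((r : ℝ) - 1) * β * n = r * β * n - β * n := by ring
      rw [i1, i2]
      linarith
    have e2 : β / 2 * z ≤ (β - ((c : ℝ) - 1)) * z :=
      mul_le_mul_of_nonneg_right (by linarith) hz
    have e3 : β * z ≤ β * (2 * (r - 1) * n) := by
      have i1 : β * z = 2 * (β / 2 * z) := by ring
      have i2 : β * (2 * ((r : ℝ) - 1) * n) = 2 * ((r - 1) * β * n) := by ring
      rw [i1, i2]
      linarith
    have e4 := le_of_mul_le_mul_left e3 hβ0
    have e5 : 2 * ((r : ℝ) - 1) * n = 2 * r * n - 2 * n := by ring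
    linarith
  -- the budget
  have hbud : (ℓ : ℝ) / (r * t) * x3 + C / β * x5 ≤ B2 * n := by
    have e1 : f ≤ ((c : ℝ) - 1) * (2 * r * n) := h1.trans (mul_le_mul_of_nonneg_left hz2 hc0)
    have e2 : x4 ≤ B1 * n := by
      refine h5.trans ?_
      rw [hB1]
      have : ((c : ℝ) - 1) * (r : ℝ) ^ r * (n + z) ≤ ((c : ℝ) - 1) * (r : ℝ) ^ r * ((2 * r + 1) * n) := by
        apply mul_le_mul_of_nonneg_left _ (by positivity)
        linarith
      calc _ ≤ _ := this
        _ = _ := by ring
    have e3 : B2 * n = ((c : ℝ) - 1) * (2 * r * n) + B1 * n := by rw [hB2]; ring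
    rw [e3]
    linarith
  have hx4' : x4 ≤ B1 * n := by
    refine h5.trans ?_
    rw [hB1]
    have : ((c : ℝ) - 1) * (r : ℝ) ^ r * (n + z) ≤ ((c : ℝ) - 1) * (r : ℝ) ^ r * ((2 * r + 1) * n) := by
      apply mul_le_mul_of_nonneg_left _ (by positivity)
      linarith
    calc _ ≤ _ := this
      _ = _ := by ring
  have hℓrt : 0 < (ℓ : ℝ) / (r * t) := by positivity
  have hCβ : 0 < C / β := by positivity
  have hx3' : x3 ≤ (r : ℝ) ^ 2 * c * (B2 * n) := by
    have e1 : (ℓ : ℝ) / (r * t) * x3 ≤ B2 * n := by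
      have := mul_nonneg hCβ.le hx5
      linarith
    have e2 : 1 ≤ (r : ℝ) ^ 2 * c * ((ℓ : ℝ) / (r * t)) := by
      have : (r : ℝ) ^ 2 * c * ((ℓ : ℝ) / (r * t)) = (r * c * ℓ) / t := by
        field_simp
      rw [this, le_div_iff₀ ht0]
      linarith
    calc x3 = 1 * x3 := by ring
      _ ≤ ((r : ℝ) ^ 2 * c * ((ℓ : ℝ) / (r * t))) * x3 := mul_le_mul_of_nonneg_right e2 hx3
      _ = (r : ℝ) ^ 2 * c * ((ℓ : ℝ) / (r * t) * x3) := by ring
      _ ≤ _ := mul_le_mul_of_nonneg_left e1 (by positivity)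
  have hx5' : x5 ≤ β / 2 * n := by
    have e1 : C / β * x5 ≤ B2 * n := by
      have := mul_nonneg hℓrt.le hx3
      linarith
    have e2 : C * x5 ≤ β * (B2 * n) := by
      have := mul_le_mul_of_nonneg_left e1 hβ0.le
      calc C * x5 = β * (C / β * x5) := by field_simp
        _ ≤ _ := this
    have e3 : B2 * n ≤ C / 2 * n := mul_le_mul_of_nonneg_right (by linarith) hn
    have e4 : C * x5 ≤ C * (β / 2 * n) := by
      calc C * x5 ≤ β * (B2 * n) := e2
        _ ≤ β * (C / 2 * n) := mul_le_mul_of_nonneg_left e3 hβ0.le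
        _ = _ := by ring
    exact le_of_mul_le_mul_left e4 (by linarith)
  -- conclusion
  have hfin : x3 + x4 + x5 ≤ β * n := by
    have e1 : (r : ℝ) ^ 2 * c * (B2 * n) + B1 * n ≤ β / 2 * n := by
      have := mul_le_mul_of_nonneg_right hβbig.le hn
      have i1 : 2 * ((r : ℝ) ^ 2 * c * B2 + B1) * n
        = 2 * ((r : ℝ) ^ 2 * c * (B2 * n) + B1 * n) := by ring
      have i2 : β / 2 * n = (β * n) / 2 := by ring
      rw [i1] at this
      rw [i2]
      linarith
    have i3 : β * n = β / 2 * n + β / 2 * n := by ring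
    linarith
  have hlast : (β - ((c : ℝ) - 1)) * z ≥ 0 := mul_nonneg (by linarith) hz
  have i4 : (β - ((c : ℝ) - 1)) * z = β * (n + z) - ((c : ℝ) - 1) * z - β * n := by ring
  linarith


theorem dg_mono {H0 H : Finset (Finset V)} (h : H0 ⊆ H) (g : Finset V) : dg H0 g ≤ dg H g :=
  card_le_card (filter_subset_filter _ h)

set_option maxHeartbeats 1600000 in
/-- **Host theorem.** -/
theorem host [Fintype V] {r c t τ ℓ : ℕ} (hr : 2 ≤ r) (hc : 1 ≤ c) (hτ : τ + ℓ = t)
    (th : Fin r → ℕ) (last : Fin r) (hlast : ∀ i, i ≤ last) (hthl : th last = τ)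
    (hthτ : ∀ i, th i ≤ τ) (B1 B2 C β : ℝ)
    (hB1 : B1 = ((c : ℝ) - 1) * (r : ℝ) ^ r * (2 * r + 1))
    (hB2 : B2 = 2 * r * ((c : ℝ) - 1) + B1) (hC : C = 2 * B2 + 1)
    (hβ : β = ((t : ℝ) - 1) / r)
    (ht : (t : ℝ) ≤ r * c * ℓ)
    (hβbig : 2 * ((r : ℝ) ^ 2 * c * B2 + B1) < β)
    (hth : ∀ i, i ≠ last → (th i : ℝ) - 1 ≤ ((i : ℕ) + 1) * (β - C))
    (H : Finset (Finset V)) (hH : ∀ e ∈ H, e.card = r)
    (hbig : β * H.shadow.card < H.card) :
    ∃ R : Set (Fin r → V), ∃ p0 ∈ R, (∀ p ∈ R, Function.Injective p) ∧ (∀ p ∈ R, im p ∈ H) ∧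
      (∀ p ∈ R, ∀ i, ∃ W : Finset V, c ≤ W.card ∧ ∀ w ∈ W, Function.update p i w ∈ R) ∧
      (∀ p ∈ R, ∀ i, th i ≤ dg H ((im p).erase (p i))) ∧
      t ≤ dg H ((im p0).erase (p0 last)) := by
  classical
  obtain ⟨H0, hH0, hbig0, hmin⟩ := exists_min β H hbig
  have hr0 : ∀ e ∈ H0, e.card = r := fun e he => hH e (hH0 he)
  -- constants
  have hrR : (2 : ℝ) ≤ r := by exact_mod_cast hr
  have hcR : (1 : ℝ) ≤ c := by exact_mod_cast hc
  have hc0 : (0 : ℝ) ≤ (c : ℝ) - 1 := by linarith
  have hB1' : 0 ≤ B1 := by rw [hB1]; positivity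
  have hB2' : 0 ≤ B2 := by
    rw [hB2]
    have : 0 ≤ 2 * (r : ℝ) * ((c : ℝ) - 1) := by positivity
    linarith
  have hC0 : 0 ≤ C := by linarith
  have hβ0 : 0 < β := by
    have : 0 ≤ 2 * ((r : ℝ) ^ 2 * c * B2 + B1) := by positivity
    linarith
  have hτt : τ ≤ t := by omega
  -- the sets
  set Q : Finset (Finset V) := H0.shadow.filter (fun g => τ ≤ dg H0 g) with hQ
  set N : Finset (Finset V) := H0.shadow.filter (fun g => ¬ τ ≤ dg H0 g) with hN
  set FQ : Finset (Finset V) := H0.filter (fun e => ∀ a ∈ e, τ ≤ dg H0 (e.erase a)) with hFQ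
  set EN : Finset (Finset V) := H0.filter (fun e => ¬ ∀ a ∈ e, τ ≤ dg H0 (e.erase a)) with hEN
  obtain ⟨F', hF'sub, hF'deg, hF'card⟩ := peel sub c hc Q FQ
  have hF'H0 : F' ⊆ H0 := hF'sub.trans (filter_subset _ _)
  have hF'r : ∀ e ∈ F', e.card = r := fun e he => hr0 e (hF'H0 he)
  set shF : Finset (Finset V) := F'.biUnion sub with hshF
  have hshQ : ∀ g ∈ shF, g ∈ Q := by
    intro g hg
    obtain ⟨e, he, hge⟩ := mem_biUnion.mp hg
    obtain ⟨a, ha, rfl⟩ := mem_sub.mp hge
    exact mem_filter.mpr ⟨erase_mem_shadow (hF'H0 he) ha, (mem_filter.mp (hF'sub he)).2 a ha⟩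
  have hdegF : ∀ g ∈ shF, c ≤ (F'.filter (fun e' => g ∈ sub e')).card := by
    intro g hg
    obtain ⟨e, he, hge⟩ := mem_biUnion.mp hg
    exact hF'deg e he g hge (hshQ g hg)
  have hext' : ∀ p : Fin r → V, Function.Injective p → ∀ i, (im p).erase (p i) ∈ shF →
      ∃ W : Finset V, c ≤ W.card ∧ ∀ w ∈ W, Function.Injective (Function.update p i w) ∧
        im (Function.update p i w) ∈ F' :=
    fun p hp i hg => ext_of_edges hF'r hp i (hdegF _ hg)
  have hfacF : ∀ p : Fin r → V, im p ∈ F' → ∀ i, (im p).erase (p i) ∈ shF :=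
    fun p hp i => mem_biUnion.mpr ⟨im p, hp, mem_sub.mpr ⟨p i, mem_im p i, rfl⟩⟩
  have hthF : ∀ p : Fin r → V, im p ∈ F' → ∀ i, th i ≤ dg H ((im p).erase (p i)) := by
    intro p hp i
    have := (mem_filter.mp (hshQ _ (hfacF p hp i))).2
    exact ((hthτ i).trans this).trans (dg_mono hH0 _)
  by_cases hA : ∃ g ∈ shF, t ≤ dg H0 g
  · -- Case A
    obtain ⟨g, hg, htg⟩ := hA
    obtain ⟨e, he, hge⟩ := mem_biUnion.mp hg
    obtain ⟨a, ha, rfl⟩ := mem_sub.mp hge
    obtain ⟨p0, hp0, him, hpa⟩ := exists_tuple (hF'r e he) ha last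
    refine ⟨{p | Function.Injective p ∧ im p ∈ F'}, p0, ⟨hp0, him ▸ he⟩, fun p hp => hp.1,
      fun p hp => hH0 (hF'H0 hp.2), ?_, fun p hp => hthF p hp.2, ?_⟩
    · intro p hp i
      exact hext' p hp.1 i (hfacF p hp.2 i)
    · rw [him, hpa]
      exact htg.trans (dg_mono hH0 _)
  · -- Case B
    push Not at hA
    set P : Finset (Finset V) := H0.shadow \ shF with hP
    set Λ : Finset (Fin r → V) := univ.filter (fun p : Fin r → V => Function.Injective p ∧
      im p ∈ EN ∧ ∀ i, th i ≤ dg H0 ((im p).erase (p i))) with hΛ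
    set S : Finset (Fin r → Option V) :=
      P.biUnion (fun g => Fintype.piFinset (fun _ : Fin r => insertNone g)) with hS
    obtain ⟨Γ, hΓsub, hΓdeg, hΓcard⟩ :=
      peel (fun p : Fin r → V => univ.image (ko p)) c hc S Λ
    have hΓ1 : ∀ p ∈ Γ, Function.Injective p := fun p hp => (mem_filter.mp (hΓsub hp)).2.1
    have hΓ2 : ∀ p ∈ Γ, im p ∈ EN := fun p hp => (mem_filter.mp (hΓsub hp)).2.2.1
    have hΓ3 : ∀ p ∈ Γ, ∀ i, th i ≤ dg H0 ((im p).erase (p i)) :=
      fun p hp => (mem_filter.mp (hΓsub hp)).2.2.2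
    by_cases hSuc : ∃ p0 ∈ Γ, t ≤ dg H0 ((im p0).erase (p0 last))
    · -- success
      obtain ⟨p0, hp0, hp0t⟩ := hSuc
      refine ⟨{p | p ∈ Γ ∨ (Function.Injective p ∧ im p ∈ F')}, p0, Or.inl hp0, ?_, ?_, ?_, ?_,
        hp0t.trans (dg_mono hH0 _)⟩
      · rintro p (hp | hp)
        · exact hΓ1 p hp
        · exact hp.1
      · rintro p (hp | hp)
        · exact hH0 (mem_filter.mp (hΓ2 p hp)).1
        · exact hH0 (hF'H0 hp.2)
      · intro p hp i
        have hpinj : Function.Injective p := hp.elim (hΓ1 p) (fun h => h.1)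
        by_cases hg : (im p).erase (p i) ∈ shF
        · obtain ⟨W, hW, hW'⟩ := hext' p hpinj i hg
          exact ⟨W, hW, fun w hw => Or.inr (hW' w hw)⟩
        · have hpΓ : p ∈ Γ := by
            rcases hp with hp | hp
            · exact hp
            · exact absurd (hfacF p hp.2 i) hg
          have hpH0 : im p ∈ H0 := (mem_filter.mp (hΓ2 p hpΓ)).1
          have hkey : ko p i ∈ univ.image (ko p) := mem_image_of_mem _ (mem_univ i)
          have hgP : (im p).erase (p i) ∈ P :=
            mem_sdiff.mpr ⟨erase_mem_shadow hpH0 (mem_im p i), hg⟩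
          have hkS : ko p i ∈ S := by
            refine mem_biUnion.mpr ⟨_, hgP, ?_⟩
            rw [Fintype.mem_piFinset]
            intro j
            by_cases hj : j = i
            · simp [ko, hj]
            · simp only [ko, if_neg hj, some_mem_insertNone]
              exact (mem_im_erase hpinj).mpr hj
          have hcnt := hΓdeg p hpΓ (ko p i) hkey hkS
          have hform : ∀ p' ∈ Γ.filter (fun e' => ko p i ∈ univ.image (ko e')),
              p' = Function.update p i (p' i) := by
            intro p' hp'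
            obtain ⟨i', _, hi'⟩ := mem_image.mp (mem_filter.mp hp').2
            obtain ⟨h1, h2⟩ := ko_eq hi'.symm
            exact h2
          refine ⟨(Γ.filter (fun e' => ko p i ∈ univ.image (ko e'))).image (fun p' => p' i), ?_, ?_⟩
          · rw [card_image_of_injOn]
            · exact hcnt
            · intro p1 hp1 p2 hp2 h12
              have h12' : p1 i = p2 i := h12
              rw [hform p1 hp1, hform p2 hp2, h12']
          · intro w hw
            obtain ⟨p', hp', rfl⟩ := mem_image.mp hw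
            left
            rw [← hform p' hp']
            exact (mem_filter.mp hp').1
      · rintro p (hp | hp) i
        · exact (hΓ3 p hp i).trans (dg_mono hH0 _)
        · exact hthF p hp.2 i
    · -- counting
      exfalso
      push Not at hSuc
      set ENc : Finset (Finset V) := EN.filter (fun e => ∀ a ∈ e, dg H0 (e.erase a) < t) with hENc
      set ENs : Finset (Finset V) := EN.filter (fun e => ¬ ∀ a ∈ e, dg H0 (e.erase a) < t) with hENs
      set Val : Finset (Finset V) := EN.filter (fun e => ∃ p : Fin r → V, Function.Injective p ∧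
        im p = e ∧ (∀ i, th i ≤ dg H0 (e.erase (p i))) ∧ t ≤ dg H0 (e.erase (p last))) with hVal
      have hValENs : Val ⊆ ENs := by
        intro e he
        obtain ⟨he1, p, hp, hpe, _, hpt⟩ := mem_filter.mp he
        refine mem_filter.mpr ⟨he1, ?_⟩
        intro hall
        have := hall (p last) (hpe ▸ mem_im p last)
        omega
      have hValcard : Val.card ≤ (Λ \ Γ).card := by
        have : Val ⊆ (Λ \ Γ).image im := by
          intro e he
          obtain ⟨he1, p, hp, hpe, hpth, hpt⟩ := mem_filter.mp he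
          refine mem_image.mpr ⟨p, mem_sdiff.mpr ⟨mem_filter.mpr ⟨mem_univ _, hp, hpe ▸ he1, ?_⟩,
            ?_⟩, hpe⟩
          · rw [hpe]; exact hpth
          · intro hpΓ
            have := hSuc p hpΓ
            rw [hpe] at this
            omega
        exact (card_le_card this).trans card_image_le
      have hScard : S.card ≤ r ^ r * P.card := by
        refine card_biUnion_le.trans ?_
        calc ∑ g ∈ P, (Fintype.piFinset (fun _ : Fin r => insertNone g)).card
            ≤ ∑ g ∈ P, r ^ r := by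
              apply sum_le_sum
              intro g hg
              rw [Fintype.card_piFinset_const, card_insertNone,
                card_of_mem_shadow hr0 (mem_sdiff.mp hg).1]
          _ = r ^ r * P.card := by rw [sum_const, smul_eq_mul, mul_comm]
      have hpos : ∀ e ∈ H0, ∀ a ∈ e, 1 ≤ dg H0 (e.erase a) :=
        fun e he a ha => dg_pos (erase_mem_shadow he ha)
      -- cardinalities
      have cEN : FQ.card + EN.card = H0.card := card_filter_add_card_filter_not _
      have cF : (FQ \ F').card + F'.card = FQ.card := card_sdiff_add_card_eq_card hF'sub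
      have cENs : ENc.card + ENs.card = EN.card := card_filter_add_card_filter_not _
      have cVal : (ENs \ Val).card + Val.card = ENs.card := card_sdiff_add_card_eq_card hValENs
      have cQN : Q.card + N.card = H0.shadow.card := card_filter_add_card_filter_not _
      have hshsub : shF ⊆ H0.shadow := fun g hg => (mem_filter.mp (hshQ g hg)).1
      have cP : P.card + shF.card = H0.shadow.card := card_sdiff_add_card_eq_card hshsub
      have cZ : (Q \ shF).card + shF.card = Q.card := card_sdiff_add_card_eq_card hshQ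
      -- F' ≠ H0
      have hwtF : ∀ e ∈ F', 1 ≤ β * wt H0 e := by
        intro e he
        rw [hβ]
        refine wt_full (by omega) (hF'r e he) (hpos e (hF'H0 he)) ?_
        intro a ha
        exact hA _ (mem_biUnion.mpr ⟨e, he, mem_sub.mpr ⟨a, ha, rfl⟩⟩)
      have hwsum : ∑ e ∈ H0, wt H0 e = H0.shadow.card := weight_sum H0 hr0
      have hne : F' ≠ H0 := by
        intro heq
        have h1 : (H0.card : ℝ) ≤ ∑ e ∈ H0, β * wt H0 e := by
          have := card_nsmul_le_sum H0 (fun e => β * wt H0 e) 1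
            (fun e he => hwtF e (heq.symm ▸ he))
          simpa using this
        rw [← mul_sum, hwsum] at h1
        linarith
      have hlt : F' ⊂ H0 := ⟨hF'H0, fun h => hne (Subset.antisymm hF'H0 h)⟩
      have hminF := hmin F' hlt
      rw [shadow_eq, ← hshF] at hminF
      -- weights
      have hsplit : ∑ e ∈ H0, (1 - β * wt H0 e) =
          (∑ e ∈ FQ \ F', (1 - β * wt H0 e) + ∑ e ∈ F', (1 - β * wt H0 e)) +
          (∑ e ∈ ENc, (1 - β * wt H0 e) +
            (∑ e ∈ ENs \ Val, (1 - β * wt H0 e) + ∑ e ∈ Val, (1 - β * wt H0 e))) := by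
        rw [sum_sdiff hF'sub, sum_sdiff hValENs, hENc, hENs, sum_filter_add_sum_filter_not, hFQ,
          hEN, sum_filter_add_sum_filter_not]
      have htot : ∑ e ∈ H0, (1 - β * wt H0 e) = (H0.card : ℝ) - β * H0.shadow.card := by
        rw [sum_sub_distrib, ← mul_sum, hwsum]
        simp
      have hle1 : ∀ e, 1 - β * wt H0 e ≤ 1 := by
        intro e
        have := mul_nonneg hβ0.le (wt_nonneg H0 e)
        linarith
      have s1 : ∑ e ∈ FQ \ F', (1 - β * wt H0 e) ≤ (FQ \ F').card := by
        have := sum_le_card_nsmul (FQ \ F') (fun e => 1 - β * wt H0 e) 1 (fun e _ => hle1 e)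
        simpa using this
      have s2 : ∑ e ∈ F', (1 - β * wt H0 e) ≤ 0 :=
        sum_nonpos (fun e he => by linarith [hwtF e he])
      have s3 : ∑ e ∈ ENc, (1 - β * wt H0 e) ≤ - ((ℓ : ℝ) / (r * t) * ENc.card) := by
        have := sum_le_card_nsmul ENc (fun e => 1 - β * wt H0 e) (-((ℓ : ℝ) / (r * t))) ?_
        · rw [nsmul_eq_mul] at this
          linarith
        · intro e he
          obtain ⟨he1, he2⟩ := mem_filter.mp he
          obtain ⟨he3, he4⟩ := mem_filter.mp he1
          rw [hβ]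
          refine wt_low (by omega) (hr0 e he3) hτ (hpos e he3) he2 ?_
          push Not at he4
          exact he4
      have s4 : ∑ e ∈ Val, (1 - β * wt H0 e) ≤ Val.card := by
        have := sum_le_card_nsmul Val (fun e => 1 - β * wt H0 e) 1 (fun e _ => hle1 e)
        simpa using this
      have s5 : ∑ e ∈ ENs \ Val, (1 - β * wt H0 e) ≤ - (C / β * (ENs \ Val).card) := by
        have := sum_le_card_nsmul (ENs \ Val) (fun e => 1 - β * wt H0 e) (-(C / β)) ?_
        · rw [nsmul_eq_mul] at this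
          linarith
        · intro e he
          obtain ⟨he1, he2⟩ := mem_sdiff.mp he
          obtain ⟨he3, he4⟩ := mem_filter.mp he1
          obtain ⟨he5, _⟩ := mem_filter.mp he3
          obtain ⟨p, hp, hpe, hmono⟩ := exists_sorted (hr0 e he5) (fun a => dg H0 (e.erase a))
          have hsup : t ≤ dg H0 (e.erase (p last)) := by
            push Not at he4
            obtain ⟨a, ha, hat⟩ := he4
            rw [← hpe] at ha
            obtain ⟨j, _, rfl⟩ := mem_image.mp ha
            exact hat.trans (hmono (hlast j))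
          have hex : ∃ i, dg H0 (e.erase (p i)) < th i := by
            by_contra hcon
            push Not at hcon
            exact he2 (mem_filter.mpr ⟨he3, p, hp, hpe, hcon, hsup⟩)
          obtain ⟨i, hi⟩ := hex
          have hil : i ≠ last := by
            rintro rfl
            rw [hthl] at hi
            omega
          refine wt_inv hC0 p hp hpe hmono (hpos e he5) i ?_
          have h1 : (dg H0 (e.erase (p i)) : ℝ) + 1 ≤ th i := by exact_mod_cast hi
          have := hth i hil
          linarith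
      -- the count of edges meeting N
      have hENle : EN.card ≤ (t - 1) * N.card := by
        have h1 : EN ⊆ N.biUnion (fun g => H0.filter (fun e => g ⊆ e)) := by
          intro e he
          obtain ⟨he1, he2⟩ := mem_filter.mp he
          push Not at he2
          obtain ⟨a, ha, hat⟩ := he2
          refine mem_biUnion.mpr ⟨e.erase a, mem_filter.mpr ⟨erase_mem_shadow he1 ha, by omega⟩,
            mem_filter.mpr ⟨he1, erase_subset _ _⟩⟩
        refine (card_le_card h1).trans (card_biUnion_le.trans ?_)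
        calc ∑ g ∈ N, (H0.filter (fun e => g ⊆ e)).card ≤ ∑ g ∈ N, (t - 1) := by
              apply sum_le_sum
              intro g hg
              have := (mem_filter.mp hg).2
              change dg H0 g ≤ t - 1
              omega
          _ = (t - 1) * N.card := by rw [sum_const, smul_eq_mul, mul_comm]
      -- casts
      have hc1 : ((c - 1 : ℕ) : ℝ) = (c : ℝ) - 1 := by push_cast [Nat.cast_sub hc]; ring
      have ht1 : 1 ≤ t := by
        by_contra hcon
        have : t = 0 := by omega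
        rw [this] at hβ
        have : β < 0 := by
          rw [hβ]
          apply div_neg_of_neg_of_pos <;> norm_num
          omega
        linarith
      have ht1' : ((t - 1 : ℕ) : ℝ) = (t : ℝ) - 1 := by push_cast [Nat.cast_sub ht1]; ring
      have cP' : (P.card : ℝ) = N.card + (Q \ shF).card := by
        have : P.card = N.card + (Q \ shF).card := by omega
        exact_mod_cast this
      refine real_contra (ℓ := ℓ) hr hc B1 B2 C β hB1 hB2 hC hβ ht hβbig (N.card : ℝ)
        ((Q \ shF).card : ℝ) ((FQ \ F').card : ℝ) (ENc.card : ℝ) (Val.card : ℝ)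
        ((ENs \ Val).card : ℝ) (by positivity) (by positivity) (by positivity) (by positivity)
        ?_ ?_ ?_ ?_ ?_
      · rw [← hc1]
        exact_mod_cast hF'card
      · have e1 : (H0.card : ℝ) = ENc.card + Val.card + (ENs \ Val).card + (FQ \ F').card
            + F'.card := by
          have : H0.card = ENc.card + Val.card + (ENs \ Val).card + (FQ \ F').card + F'.card := by
            omega
          exact_mod_cast this
        have e2 : (H0.shadow.card : ℝ) = P.card + shF.card := by exact_mod_cast cP.symm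
        have e3 : β * (H0.shadow.card : ℝ) = β * ((N.card : ℝ) + (Q \ shF).card)
            + β * shF.card := by rw [e2, cP']; ring
        linarith
      · have e1 : ((ENc.card : ℝ) + Val.card + (ENs \ Val).card) = EN.card := by
          have : ENc.card + Val.card + (ENs \ Val).card = EN.card := by omega
          exact_mod_cast this
        rw [e1, ← ht1']
        exact_mod_cast hENle
      · linarith
      · have e1 : Val.card ≤ (c - 1) * (r ^ r * P.card) :=
          hValcard.trans (hΓcard.trans (Nat.mul_le_mul_left _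
            ((card_le_card sdiff_subset).trans hScard)))
        have e2 : (Val.card : ℝ) ≤ ((c : ℝ) - 1) * ((r : ℝ) ^ r * P.card) := by
          rw [← hc1]
          exact_mod_cast e1
        rw [cP'] at e2
        calc _ ≤ _ := e2
          _ = _ := by ring

end Pool.Agent.W934.K
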