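import Mathlib

/-!
# Peeling lemma
-/

set_option autoImplicit false

open Finset

namespace Pool.Agent.W934.K

/-- Peeling: from a finite family `E` whose members carry keys we can remove at most `c - 1` members
for each key of `S` that disappears, so that afterwards every key of `S` that is still present is
carried by at least `c` members. -/
theorem peel {α κ : Type*} [DecidableEq α] [DecidableEq κ] (key : α → Finset κ) (c : ℕ)
    (hc : 1 ≤ c) : ∀ (S : Finset κ) (E : Finset α),
    ∃ Γ : Finset α, Γ ⊆ E ∧
      (∀ e ∈ Γ, ∀ s ∈ key e, s ∈ S → c ≤ (Γ.filter (fun e' => s ∈ key e')).card) ∧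
      (E \ Γ).card ≤ (c - 1) * (S \ Γ.biUnion key).card := by
  intro S
  induction S using Finset.strongInduction with
  | H S ih =>
    intro E
    by_cases h : ∀ e ∈ E, ∀ s ∈ key e, s ∈ S → c ≤ (E.filter (fun e' => s ∈ key e')).card
    · exact ⟨E, Subset.refl _, h, by simp⟩
    · push Not at h
      obtain ⟨e, he, s, hs, hsS, hlt⟩ := h
      obtain ⟨Γ, hΓ, h1, h2⟩ := ih (S.erase s) (Finset.erase_ssubset hsS)
        (E.filter (fun e' => s ∉ key e'))
      have hsΓ : s ∉ Γ.biUnion key := by
        intro hmem
        obtain ⟨e', he', hse'⟩ := Finset.mem_biUnion.mp hmem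
        exact (Finset.mem_filter.mp (hΓ he')).2 hse'
      refine ⟨Γ, hΓ.trans (Finset.filter_subset _ _), ?_, ?_⟩
      · intro e' he' s' hs' hs'S
        refine h1 e' he' s' hs' (Finset.mem_erase.mpr ⟨?_, hs'S⟩)
        rintro rfl
        exact hsΓ (Finset.mem_biUnion.mpr ⟨e', he', hs'⟩)
      · have hsub : E \ Γ ⊆ (E.filter (fun e' => s ∈ key e')) ∪
            ((E.filter (fun e' => s ∉ key e')) \ Γ) := by
          intro x hx
          obtain ⟨hxE, hxΓ⟩ := Finset.mem_sdiff.mp hx
          by_cases hsx : s ∈ key x
          · exact Finset.mem_union_left _ (Finset.mem_filter.mpr ⟨hxE, hsx⟩)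
          · exact Finset.mem_union_right _
              (Finset.mem_sdiff.mpr ⟨Finset.mem_filter.mpr ⟨hxE, hsx⟩, hxΓ⟩)
        have hcard : (S \ Γ.biUnion key).card = ((S.erase s) \ Γ.biUnion key).card + 1 := by
          have : S \ Γ.biUnion key = insert s ((S.erase s) \ Γ.biUnion key) := by
            ext x
            simp only [mem_sdiff, mem_insert, mem_erase]
            constructor
            · rintro ⟨hx, hx'⟩
              by_cases hxs : x = s
              · exact Or.inl hxs
              · exact Or.inr ⟨⟨hxs, hx⟩, hx'⟩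
            · rintro (rfl | ⟨⟨_, hx⟩, hx'⟩)
              · exact ⟨hsS, hsΓ⟩
              · exact ⟨hx, hx'⟩
          rw [this, Finset.card_insert_of_notMem (by simp)]
        have hle := (Finset.card_le_card hsub).trans (Finset.card_union_le _ _)
        have hlt' : (E.filter (fun e' => s ∈ key e')).card ≤ c - 1 := by omega
        calc (E \ Γ).card ≤ _ := hle
          _ ≤ (c - 1) + (c - 1) * ((S.erase s) \ Γ.biUnion key).card := by
            exact Nat.add_le_add hlt' h2
          _ = (c - 1) * (S \ Γ.biUnion key).card := by rw [hcard]; ring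

end Pool.Agent.W934.K
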