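import Mathlib

/-!
# Tight trees, built edge by edge from a root edge
-/

set_option autoImplicit false

open Finset

namespace Pool.Agent.W934.K

/-- `TT E S`: the edge set `S` is obtained from the root edge `E` by repeatedly replacing one
vertex of an existing edge by a new vertex. -/
inductive TT : Finset ℕ → Finset (Finset ℕ) → Prop
  | single (E : Finset ℕ) : TT E {E}
  | add {E : Finset ℕ} {S : Finset (Finset ℕ)} (F : Finset ℕ) (x v : ℕ) (h : TT E S) (hF : F ∈ S)
      (hx : x ∈ F) (hv : v ∉ S.biUnion id) : TT E (insert (insert v (F.erase x)) S)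

theorem TT.root_mem {E : Finset ℕ} {S : Finset (Finset ℕ)} (h : TT E S) : E ∈ S := by
  induction h with
  | single => simp
  | add F x v h hF hx hv ih => exact mem_insert_of_mem ih

theorem TT.new_edge_notMem {S : Finset (Finset ℕ)} {F : Finset ℕ} {x v : ℕ}
    (hv : v ∉ S.biUnion id) : insert v (F.erase x) ∉ S := by
  intro h
  exact hv (mem_biUnion.mpr ⟨_, h, by simp⟩)

theorem TT.card_union {r : ℕ} {E : Finset ℕ} {S : Finset (Finset ℕ)} (h : TT E S)
    (hr : E.card = r) : (S.biUnion id).card + 1 = r + S.card := by
  induction h with
  | single => simp [hr]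
  | @add S F x v h hF hx hv ih =>
    have e1 : (insert (insert v (F.erase x)) S).biUnion id = insert v (S.biUnion id) := by
      ext y
      simp only [mem_biUnion, mem_insert, id]
      constructor
      · rintro ⟨G, rfl | hG, hy⟩
        · rcases mem_insert.mp hy with rfl | hy
          · exact Or.inl rfl
          · exact Or.inr ⟨F, hF, mem_of_mem_erase hy⟩
        · exact Or.inr ⟨G, hG, hy⟩
      · rintro (rfl | ⟨G, hG, hy⟩)
        · exact ⟨_, Or.inl rfl, mem_insert_self _ _⟩
        · exact ⟨G, Or.inr hG, hy⟩
    rw [e1, card_insert_of_notMem hv, card_insert_of_notMem (TT.new_edge_notMem hv)]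
    have := ih
    omega

/-- a new edge attached to the root can be taken as the root -/
theorem TT.swap {F : Finset ℕ} {S : Finset (Finset ℕ)} (h : TT F S) : ∀ {x v : ℕ}, x ∈ F →
    v ∉ S.biUnion id → TT (insert v (F.erase x)) (insert (insert v (F.erase x)) S) := by
  induction h with
  | single =>
    intro x v hx hv
    have hvF : v ∉ F := by simpa using hv
    have hxv : x ≠ v := fun h => hvF (h ▸ hx)
    have e1 : F = insert x ((insert v (F.erase x)).erase v) := by
      rw [erase_insert (by simp [hvF]), insert_erase hx]
    have h2 : TT (insert v (F.erase x)) (insert (insert x ((insert v (F.erase x)).erase v))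
        {insert v (F.erase x)}) :=
      TT.add (insert v (F.erase x)) v x (TT.single _) (by simp) (by simp) (by simp [hxv])
    rw [← e1] at h2
    rw [show insert (insert v (F.erase x)) ({F} : Finset (Finset ℕ))
      = insert F {insert v (F.erase x)} from by rw [Finset.pair_comm]]
    exact h2
  | @add S F1 x1 v1 h hF1 hx1 hv1 ih =>
    intro x v hx hv
    have hvS : v ∉ S.biUnion id := by
      intro hm
      obtain ⟨G, hG, hy⟩ := mem_biUnion.mp hm
      exact hv (mem_biUnion.mpr ⟨G, mem_insert_of_mem hG, hy⟩)
    have hvv : v ≠ v1 := by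
      rintro rfl
      exact hv (mem_biUnion.mpr ⟨_, mem_insert_self _ _, by simp⟩)
    have h2 := ih hx hvS
    have hv1' : v1 ∉ (insert (insert v (F.erase x)) S).biUnion id := by
      intro hm
      obtain ⟨G, hG, hy⟩ := mem_biUnion.mp hm
      rcases mem_insert.mp hG with rfl | hG
      · simp only [id] at hy
        rcases mem_insert.mp hy with hy | hy
        · exact hvv hy.symm
        · exact hv1 (mem_biUnion.mpr ⟨F, h.root_mem, mem_of_mem_erase hy⟩)
      · exact hv1 (mem_biUnion.mpr ⟨G, hG, hy⟩)
    have h3 := TT.add F1 x1 v1 h2 (mem_insert_of_mem hF1) hx1 hv1'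
    rwa [Finset.insert_comm] at h3

theorem TT.reroot {E : Finset ℕ} {S : Finset (Finset ℕ)} (h : TT E S) :
    ∀ E' ∈ S, TT E' S := by
  induction h with
  | single =>
    intro E' hE'
    rw [mem_singleton] at hE'
    subst hE'
    exact TT.single _
  | @add S F x v h hF hx hv ih =>
    intro E' hE'
    rcases mem_insert.mp hE' with rfl | hE'
    · exact (ih F hF).swap hx hv
    · exact TT.add F x v (ih E' hE') hF hx hv

/-- From the sequence of edges to the inductive form. -/
theorem TT.of_seq {r : ℕ} (e : ℕ → Finset ℕ) : ∀ m : ℕ, 1 ≤ m →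
    (∀ i, i < m → (e i).card = r) →
    (∀ i, 0 < i → i < m →
      ∃ v ∈ e i, (∀ j, j < i → v ∉ e j) ∧ ∃ j, j < i ∧ e i \ {v} ⊆ e j) →
    TT (e 0) ((range m).image e) ∧ ((range m).image e).card = m := by
  intro m hm
  induction m, hm using Nat.le_induction with
  | base =>
    intro _ _
    simp only [range_one, image_singleton, card_singleton, and_true]
    exact TT.single _
  | succ m hm ih =>
    intro hcard hprop
    obtain ⟨h1, h2⟩ := ih (fun i hi => hcard i (by omega)) (fun i h0 hi => hprop i h0 (by omega))
    obtain ⟨v, hv, hnew, j, hj, hsub⟩ := hprop m (by omega) (by omega)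
    have hvU : v ∉ ((range m).image e).biUnion id := by
      intro hm'
      obtain ⟨G, hG, hy⟩ := mem_biUnion.mp hm'
      obtain ⟨i, hi, rfl⟩ := mem_image.mp hG
      exact hnew i (mem_range.mp hi) hy
    have hc1 : (e m \ {v}).card = r - 1 := by
      rw [card_sdiff_of_subset (by simpa using hv), hcard m (by omega)]
      simp
    have hrpos : 1 ≤ r := by
      rw [← hcard m (by omega)]
      exact card_pos.mpr ⟨v, hv⟩
    have hc2 : (e j \ (e m \ {v})).card = 1 := by
      rw [card_sdiff_of_subset hsub, hc1, hcard j (by omega)]
      omega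
    obtain ⟨x, hx⟩ := card_eq_one.mp hc2
    have hxj : x ∈ e j := by
      have : x ∈ e j \ (e m \ {v}) := by rw [hx]; simp
      exact (mem_sdiff.mp this).1
    have hxm : x ∉ e m \ {v} := by
      have : x ∈ e j \ (e m \ {v}) := by rw [hx]; simp
      exact (mem_sdiff.mp this).2
    have he : e m = insert v ((e j).erase x) := by
      have h3 : (e j).erase x = e m \ {v} := by
        symm
        apply eq_of_subset_of_card_le
        · intro y hy
          exact mem_erase.mpr ⟨fun h => hxm (h ▸ hy), hsub hy⟩
        · rw [card_erase_of_mem hxj, hcard j (by omega), hc1]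
      rw [h3, sdiff_singleton_eq_erase, insert_erase hv]
    have h4 := TT.add (e j) x v h1 (mem_image.mpr ⟨j, mem_range.mpr hj, rfl⟩) hxj hvU
    rw [← he] at h4
    have h5 : (range (m + 1)).image e = insert (e m) ((range m).image e) := by
      rw [range_add_one, image_insert]
    refine ⟨by rw [h5]; exact h4, ?_⟩
    rw [h5, card_insert_of_notMem, h2]
    intro hmem
    obtain ⟨i, hi, hie⟩ := mem_image.mp hmem
    exact hnew i (mem_range.mp hi) (hie ▸ hv)

/-- a proper colouring exists, and crosscuts are colour classes -/
theorem exists_colouring {r : ℕ} (hr : 1 ≤ r) (e : ℕ → Finset ℕ) (A : Finset ℕ) :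
    ∀ m : ℕ, 1 ≤ m →
    (∀ i, i < m → (e i).card = r) →
    (∀ i, 0 < i → i < m →
      ∃ v ∈ e i, (∀ j, j < i → v ∉ e j) ∧ ∃ j, j < i ∧ e i \ {v} ⊆ e j) →
    (∀ i, i < m → (A ∩ e i).card = 1) →
    ∃ (κ : ℕ → Fin r) (a : Fin r), (∀ i, i < m → Set.InjOn κ (e i : Set ℕ)) ∧
      ∀ i, i < m → ∀ x ∈ e i, (x ∈ A ↔ κ x = a) := by
  intro m hm
  induction m, hm using Nat.le_induction with
  | base =>
    intro hcard _ hA
    have h0 := hcard 0 (by omega)
    have : NeZero r := ⟨by omega⟩
    let f := (e 0).equivFinOfCardEq h0
    let κ : ℕ → Fin r := fun x => if h : x ∈ e 0 then f ⟨x, h⟩ else 0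
    have hκ : Set.InjOn κ (e 0 : Set ℕ) := by
      intro x hx y hy hxy
      have hx' : x ∈ e 0 := hx
      have hy' : y ∈ e 0 := hy
      simp only [κ, hx', hy', dif_pos] at hxy
      have := f.injective hxy
      simpa using this
    obtain ⟨x0, hx0⟩ := card_eq_one.mp (hA 0 (by omega))
    have hx0' : x0 ∈ A ∩ e 0 := by rw [hx0]; simp
    refine ⟨κ, κ x0, ?_, ?_⟩
    · intro i hi
      obtain rfl : i = 0 := by omega
      exact hκ
    · intro i hi x hx
      obtain rfl : i = 0 := by omega
      constructor
      · intro hxA
        have : x ∈ A ∩ e 0 := mem_inter.mpr ⟨hxA, hx⟩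
        rw [hx0, mem_singleton] at this
        rw [this]
      · intro h
        have := hκ hx (mem_inter.mp hx0').2 h
        rw [this]
        exact (mem_inter.mp hx0').1
  | succ m hm ih =>
    intro hcard hprop hA
    obtain ⟨κ, a, hκ, ha⟩ := ih (fun i hi => hcard i (by omega))
      (fun i h0 hi => hprop i h0 (by omega)) (fun i hi => hA i (by omega))
    obtain ⟨v, hv, hnew, j, hj, hsub⟩ := hprop m (by omega) (by omega)
    have hc1 : (e m \ {v}).card = r - 1 := by
      rw [card_sdiff_of_subset (by simpa using hv), hcard m (by omega)]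
      simp
    have hc2 : (e j \ (e m \ {v})).card = 1 := by
      rw [card_sdiff_of_subset hsub, hc1, hcard j (by omega)]
      omega
    obtain ⟨x, hx⟩ := card_eq_one.mp hc2
    have hxmem : x ∈ e j \ (e m \ {v}) := by rw [hx]; simp
    have hxj : x ∈ e j := (mem_sdiff.mp hxmem).1
    have hxm : x ∉ e m \ {v} := (mem_sdiff.mp hxmem).2
    have he : e m = insert v ((e j).erase x) := by
      have h3 : (e j).erase x = e m \ {v} := by
        symm
        apply eq_of_subset_of_card_le
        · intro y hy
          exact mem_erase.mpr ⟨fun h => hxm (h ▸ hy), hsub hy⟩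
        · rw [card_erase_of_mem hxj, hcard j (by omega), hc1]
      rw [h3, sdiff_singleton_eq_erase, insert_erase hv]
    have hvj : v ∉ e j := hnew j hj
    have hold : ∀ i, i < m → ∀ y ∈ e i, Function.update κ v (κ x) y = κ y := by
      intro i hi y hy
      have : y ≠ v := fun h => hnew i hi (h ▸ hy)
      rw [Function.update_of_ne this]
    refine ⟨Function.update κ v (κ x), a, ?_, ?_⟩
    · intro i hi
      rcases Nat.lt_succ_iff_lt_or_eq.mp hi with hi | rfl
      · intro y hy z hz hyz
        rw [hold i hi y hy, hold i hi z hz] at hyz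
        exact hκ i hi hy hz hyz
      · rw [he]
        intro y hy z hz hyz
        have hy' : y = v ∨ (y ≠ x ∧ y ∈ e j) := by
          rw [mem_coe, mem_insert, mem_erase] at hy
          exact hy
        have hz' : z = v ∨ (z ≠ x ∧ z ∈ e j) := by
          rw [mem_coe, mem_insert, mem_erase] at hz
          exact hz
        rcases hy' with rfl | ⟨hy1, hy2⟩
        · rcases hz' with rfl | ⟨hz1, hz2⟩
          · rfl
          · rw [Function.update_self, hold j hj z hz2] at hyz
            exact absurd (hκ j hj hxj hz2 hyz).symm hz1
        · rcases hz' with rfl | ⟨hz1, hz2⟩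
          · rw [Function.update_self, hold j hj y hy2] at hyz
            exact absurd (hκ j hj hy2 hxj hyz) hy1
          · rw [hold j hj z hz2, hold j hj y hy2] at hyz
            exact hκ j hj hy2 hz2 hyz
    · intro i hi y hy
      rcases Nat.lt_succ_iff_lt_or_eq.mp hi with hi | rfl
      · rw [hold i hi y hy]
        exact ha i hi y hy
      · have hAm := hA i (by omega)
        have hAj := hA j (by omega)
        have hy' : y = v ∨ (y ≠ x ∧ y ∈ e j) := by
          rw [he, mem_insert, mem_erase] at hy
          exact hy
        rcases hy' with rfl | ⟨hy1, hy2⟩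
        · rw [Function.update_self, ← ha j hj x hxj]
          -- y ∈ A ↔ x ∈ A
          have e1 : A ∩ e i = (if y ∈ A then {y} else ∅) ∪ (A ∩ (e j).erase x) := by
            rw [he]
            ext z
            by_cases hyA : y ∈ A
            · simp only [mem_inter, mem_insert, mem_erase, hyA, if_true, mem_union, mem_singleton]
              constructor
              · rintro ⟨h1, rfl | h2⟩
                · exact Or.inl rfl
                · exact Or.inr ⟨h1, h2⟩
              · rintro (rfl | ⟨h1, h2⟩)
                · exact ⟨hyA, Or.inl rfl⟩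
                · exact ⟨h1, Or.inr h2⟩
            · simp only [mem_inter, mem_insert, mem_erase, hyA, if_false, mem_union, notMem_empty,
                false_or]
              constructor
              · rintro ⟨h1, rfl | h2⟩
                · exact absurd h1 hyA
                · exact ⟨h1, h2⟩
              · rintro ⟨h1, h2⟩
                exact ⟨h1, Or.inr h2⟩
          have e2 : A ∩ e j = (if x ∈ A then {x} else ∅) ∪ (A ∩ (e j).erase x) := by
            ext z
            by_cases hxA : x ∈ A
            · simp only [mem_inter, mem_erase, hxA, if_true, mem_union, mem_singleton]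
              constructor
              · rintro ⟨h1, h2⟩
                by_cases hzx : z = x
                · exact Or.inl hzx
                · exact Or.inr ⟨h1, hzx, h2⟩
              · rintro (rfl | ⟨h1, _, h2⟩)
                · exact ⟨hxA, hxj⟩
                · exact ⟨h1, h2⟩
            · simp only [mem_inter, mem_erase, hxA, if_false, mem_union, notMem_empty, false_or]
              constructor
              · rintro ⟨h1, h2⟩
                exact ⟨h1, fun h => hxA (h ▸ h1), h2⟩
              · rintro ⟨h1, _, h2⟩
                exact ⟨h1, h2⟩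
          have d1 : Disjoint (if y ∈ A then ({y} : Finset ℕ) else ∅) (A ∩ (e j).erase x) := by
            split_ifs
            · simp only [disjoint_singleton_left, mem_inter, mem_erase]
              rintro ⟨_, _, h⟩
              exact hvj h
            · simp
          have d2 : Disjoint (if x ∈ A then ({x} : Finset ℕ) else ∅) (A ∩ (e j).erase x) := by
            split_ifs
            · simp
            · simp
          rw [e1, card_union_of_disjoint d1] at hAm
          rw [e2, card_union_of_disjoint d2] at hAj
          by_cases hyA : y ∈ A <;> by_cases hxA : x ∈ A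
          · simp [hyA, hxA]
          · rw [if_pos hyA, card_singleton] at hAm
            rw [if_neg hxA, card_empty] at hAj
            omega
          · rw [if_neg hyA, card_empty] at hAm
            rw [if_pos hxA, card_singleton] at hAj
            omega
          · simp [hyA, hxA]
        · rw [hold j hj y hy2]
          exact ha j hj y hy2

end Pool.Agent.W934.K
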