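import Pool.Agent.W934.K.Emb
import Pool.Agent.W934.K.Peel

/-!
# Labelled edges (injective tuples) and weights
-/

set_option autoImplicit false

open Finset

namespace Pool.Agent.W934.K

variable {V : Type*} [DecidableEq V]

/-- the vertex set of a tuple -/
def im {r : ℕ} (p : Fin r → V) : Finset V := univ.image p

theorem mem_im {r : ℕ} (p : Fin r → V) (i : Fin r) : p i ∈ im p :=
  mem_image_of_mem p (mem_univ i)

theorem card_im {r : ℕ} {p : Fin r → V} (hp : Function.Injective p) : (im p).card = r := by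
  unfold im
  rw [card_image_of_injective _ hp, card_univ, Fintype.card_fin]

theorem mem_im_erase {r : ℕ} {p : Fin r → V} (hp : Function.Injective p) {i j : Fin r} :
    p j ∈ (im p).erase (p i) ↔ j ≠ i := by
  rw [mem_erase]
  constructor
  · rintro ⟨h, _⟩ rfl
    exact h rfl
  · intro h
    exact ⟨fun h' => h (hp h'), mem_im p j⟩

theorem mem_im_erase' {r : ℕ} {p : Fin r → V} {i : Fin r} {x : V}
    (h : x ∈ (im p).erase (p i)) : ∃ j, j ≠ i ∧ p j = x := by
  obtain ⟨h1, h2⟩ := mem_erase.mp h
  obtain ⟨j, _, rfl⟩ := mem_image.mp h2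
  exact ⟨j, fun h' => h1 (by rw [h']), rfl⟩

theorem update_inj {r : ℕ} {p : Fin r → V} (hp : Function.Injective p) (i : Fin r) {w : V}
    (hw : w ∉ (im p).erase (p i)) : Function.Injective (Function.update p i w) := by
  intro j k hjk
  by_cases hj : j = i
  · by_cases hk : k = i
    · rw [hj, hk]
    · rw [hj, Function.update_self, Function.update_of_ne hk] at hjk
      exact absurd (hjk ▸ (mem_im_erase hp).mpr hk) hw
  · by_cases hk : k = i
    · rw [hk, Function.update_self, Function.update_of_ne hj] at hjk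
      exact absurd (hjk ▸ (mem_im_erase hp).mpr hj) hw
    · rw [Function.update_of_ne hj, Function.update_of_ne hk] at hjk
      exact hp hjk

theorem im_update {r : ℕ} {p : Fin r → V} (hp : Function.Injective p) (i : Fin r) (w : V) :
    im (Function.update p i w) = insert w ((im p).erase (p i)) := by
  ext x
  constructor
  · intro hx
    obtain ⟨j, _, rfl⟩ := mem_image.mp hx
    by_cases hj : j = i
    · rw [hj, Function.update_self]
      exact mem_insert_self _ _
    · rw [Function.update_of_ne hj]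
      exact mem_insert_of_mem ((mem_im_erase hp).mpr hj)
  · intro hx
    rcases mem_insert.mp hx with rfl | hx
    · exact mem_image.mpr ⟨i, mem_univ _, Function.update_self ..⟩
    · obtain ⟨j, hj, rfl⟩ := mem_im_erase' hx
      exact mem_image.mpr ⟨j, mem_univ _, Function.update_of_ne hj _ _⟩

/-- every edge is the vertex set of a tuple, with a prescribed vertex at a prescribed place -/
theorem exists_tuple {r : ℕ} {e : Finset V} (he : e.card = r) {a : V} (ha : a ∈ e) (i : Fin r) :
    ∃ p : Fin r → V, Function.Injective p ∧ im p = e ∧ p i = a := by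
  let f := (e.equivFinOfCardEq he).symm
  let σ : Equiv.Perm (Fin r) := Equiv.swap i (f.symm ⟨a, ha⟩)
  refine ⟨fun j => (f (σ j) : V), ?_, ?_, ?_⟩
  · intro j k hjk
    exact σ.injective (f.injective (Subtype.ext hjk))
  · ext x
    constructor
    · intro hx
      obtain ⟨j, _, rfl⟩ := mem_image.mp hx
      exact (f (σ j)).2
    · intro hx
      refine mem_image.mpr ⟨σ.symm (f.symm ⟨x, hx⟩), mem_univ _, ?_⟩
      simp
  · simp [σ]

/-- a tuple sorted by an arbitrary weight function -/
theorem exists_sorted {r : ℕ} {e : Finset V} (he : e.card = r) (d : V → ℕ) :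
    ∃ p : Fin r → V, Function.Injective p ∧ im p = e ∧ Monotone (fun i => d (p i)) := by
  let f := (e.equivFinOfCardEq he).symm
  let q : Fin r → V := fun j => (f j : V)
  let σ := Tuple.sort (fun i => d (q i))
  refine ⟨fun j => q (σ j), ?_, ?_, ?_⟩
  · intro j k hjk
    exact σ.injective (f.injective (Subtype.ext hjk))
  · ext x
    constructor
    · intro hx
      obtain ⟨j, _, rfl⟩ := mem_image.mp hx
      exact (f (σ j)).2
    · intro hx
      refine mem_image.mpr ⟨σ.symm (f.symm ⟨x, hx⟩), mem_univ _, ?_⟩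
      simp [q]
  · exact Tuple.monotone_sort (fun i => d (q i))

theorem sum_im {r : ℕ} {p : Fin r → V} (hp : Function.Injective p) (F : V → ℝ) :
    ∑ a ∈ im p, F a = ∑ i, F (p i) := by
  unfold im
  rw [sum_image (fun x _ y _ h => hp h)]

/-- the facets of an edge -/
def sub (e : Finset V) : Finset (Finset V) := e.image (fun a => e.erase a)

theorem mem_sub {e g : Finset V} : g ∈ sub e ↔ ∃ a ∈ e, e.erase a = g := mem_image

theorem shadow_eq (F : Finset (Finset V)) : F.shadow = F.biUnion sub := by
  unfold Finset.shadow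
  rw [sup_eq_biUnion]
  rfl

theorem mem_sub_iff {r : ℕ} {e g : Finset V} (he : e.card = r) (hg : g.card + 1 = r) :
    g ∈ sub e ↔ g ⊆ e := by
  rw [mem_sub]
  constructor
  · rintro ⟨a, _, rfl⟩
    exact erase_subset _ _
  · intro h
    obtain ⟨w, hw, hwe⟩ := exists_eq_insert_iff.mpr ⟨h, by rw [he, hg]⟩
    refine ⟨w, hwe ▸ mem_insert_self _ _, ?_⟩
    rw [← hwe, erase_insert hw]

theorem card_of_mem_shadow {r : ℕ} {H : Finset (Finset V)} (hH : ∀ e ∈ H, e.card = r)
    {g : Finset V} (hg : g ∈ H.shadow) : g.card + 1 = r := by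
  obtain ⟨e, he, a, ha, rfl⟩ := mem_shadow_iff.mp hg
  rw [card_erase_of_mem ha, hH e he]
  have : 0 < e.card := card_pos.mpr ⟨a, ha⟩
  rw [hH e he] at this
  omega

theorem dg_pos {H : Finset (Finset V)} {g : Finset V} (hg : g ∈ H.shadow) : 1 ≤ dg H g := by
  obtain ⟨e, he, a, ha, rfl⟩ := mem_shadow_iff.mp hg
  exact card_pos.mpr ⟨e, mem_filter.mpr ⟨he, erase_subset _ _⟩⟩

theorem erase_mem_shadow {H : Finset (Finset V)} {e : Finset V} (he : e ∈ H) {a : V}
    (ha : a ∈ e) : e.erase a ∈ H.shadow := mem_shadow_iff.mpr ⟨e, he, a, ha, rfl⟩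

/-- the weight identity -/
theorem weight_sum {r : ℕ} (H : Finset (Finset V)) (hH : ∀ e ∈ H, e.card = r) :
    ∑ e ∈ H, ∑ a ∈ e, (1 : ℝ) / dg H (e.erase a) = H.shadow.card := by
  have h1 : ∀ e ∈ H, ∑ a ∈ e, (1 : ℝ) / dg H (e.erase a) = ∑ g ∈ sub e, (1 : ℝ) / dg H g := by
    intro e _
    unfold sub
    rw [sum_image]
    intro x hx y hy hxy
    exact erase_injOn e hx hy hxy
  rw [sum_congr rfl h1]
  rw [sum_comm' (t' := H.shadow) (s' := fun g => H.filter (fun e => g ⊆ e))]
  · have h2 : ∀ g ∈ H.shadow, ∑ x ∈ H.filter (fun e => g ⊆ e), (1 : ℝ) / dg H g = 1 := by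
      intro g hg
      rw [sum_const, nsmul_eq_mul]
      have : (1 : ℝ) ≤ dg H g := by exact_mod_cast dg_pos hg
      change (dg H g : ℝ) * (1 / dg H g) = 1
      field_simp
    rw [sum_congr rfl h2]
    simp
  · intro e g
    constructor
    · rintro ⟨he, hg⟩
      obtain ⟨a, ha, rfl⟩ := mem_sub.mp hg
      exact ⟨mem_filter.mpr ⟨he, erase_subset _ _⟩, erase_mem_shadow he ha⟩
    · rintro ⟨he, hg⟩
      obtain ⟨he1, he2⟩ := mem_filter.mp he
      exact ⟨he1, (mem_sub_iff (hH e he1) (card_of_mem_shadow hH hg)).mpr he2⟩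

/-- the label sets: a tuple with one place deleted -/
def ko {r : ℕ} (p : Fin r → V) (i : Fin r) : Fin r → Option V :=
  fun j => if j = i then none else some (p j)

theorem ko_eq {r : ℕ} {p p' : Fin r → V} {i i' : Fin r} (h : ko p i = ko p' i') :
    i = i' ∧ p' = Function.update p i (p' i) := by
  have h1 : i = i' := by
    have := congrFun h i
    simp only [ko, if_true] at this
    by_contra hne
    rw [if_neg hne] at this
    exact absurd this (by simp)
  subst h1
  refine ⟨rfl, ?_⟩
  funext j
  by_cases hj : j = i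
  · rw [hj, Function.update_self]
  · rw [Function.update_of_ne hj]
    have := congrFun h j
    simp only [ko, if_neg hj] at this
    exact (Option.some.inj this).symm

end Pool.Agent.W934.K
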