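import Pool.Agent.W934.K.Tup

/-!
# Bounds for the weights of edges
-/

set_option autoImplicit false

open Finset

namespace Pool.Agent.W934.K

variable {V : Type*} [DecidableEq V]

theorem exists_min (β : ℝ) (H : Finset (Finset V)) (h : β * H.shadow.card < H.card) :
    ∃ H0 ⊆ H, β * H0.shadow.card < H0.card ∧
      ∀ F, F ⊂ H0 → (F.card : ℝ) ≤ β * F.shadow.card := by
  induction H using Finset.strongInduction with
  | H H ih =>
    by_cases hex : ∃ F, F ⊂ H ∧ β * F.shadow.card < F.card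
    · obtain ⟨F, hF, hF'⟩ := hex
      obtain ⟨H0, h1, h2, h3⟩ := ih F hF hF'
      exact ⟨H0, h1.trans hF.1, h2, h3⟩
    · push Not at hex
      exact ⟨H, Subset.refl _, h, hex⟩

/-- the weight of an edge -/
noncomputable def wt (H : Finset (Finset V)) (e : Finset V) : ℝ :=
  ∑ a ∈ e, (1 : ℝ) / dg H (e.erase a)

theorem wt_nonneg (H : Finset (Finset V)) (e : Finset V) : 0 ≤ wt H e :=
  sum_nonneg (fun _ _ => by positivity)

theorem wt_full {H : Finset (Finset V)} {e : Finset V} {r t : ℕ} (hr : 1 ≤ r) (he : e.card = r)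
    (hpos : ∀ a ∈ e, 1 ≤ dg H (e.erase a)) (h : ∀ a ∈ e, dg H (e.erase a) < t) :
    1 ≤ ((t : ℝ) - 1) / r * wt H e := by
  obtain ⟨a, ha⟩ : e.Nonempty := card_pos.mp (by omega)
  have h1 := hpos a ha
  have h2 := h a ha
  have ht : (1 : ℝ) ≤ (t : ℝ) - 1 := by
    have : (2 : ℝ) ≤ t := by exact_mod_cast (by omega : 2 ≤ t)
    linarith
  have hrR : (0 : ℝ) < r := by exact_mod_cast hr
  have h3 : (r : ℝ) * (1 / ((t : ℝ) - 1)) ≤ wt H e := by
    unfold wt
    rw [← he, ← nsmul_eq_mul]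
    apply card_nsmul_le_sum
    intro b hb
    have h4 : (dg H (e.erase b) : ℝ) ≤ t - 1 := by
      have := h b hb
      have : (dg H (e.erase b) : ℝ) + 1 ≤ t := by exact_mod_cast this
      linarith
    have h5 : (1 : ℝ) ≤ dg H (e.erase b) := by exact_mod_cast hpos b hb
    exact one_div_le_one_div_of_le (by linarith) h4
  calc (1 : ℝ) = ((t : ℝ) - 1) / r * (r * (1 / ((t : ℝ) - 1))) := by field_simp
    _ ≤ _ := mul_le_mul_of_nonneg_left h3 (by positivity)

theorem wt_low {H : Finset (Finset V)} {e : Finset V} {r t τ ℓ : ℕ} (hr : 1 ≤ r)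
    (he : e.card = r) (hτ : τ + ℓ = t) (hpos : ∀ a ∈ e, 1 ≤ dg H (e.erase a))
    (h : ∀ a ∈ e, dg H (e.erase a) < t) (h' : ∃ a ∈ e, dg H (e.erase a) < τ) :
    1 - ((t : ℝ) - 1) / r * wt H e ≤ - ((ℓ : ℝ) / (r * t)) := by
  obtain ⟨a, ha, haτ⟩ := h'
  have h1 := hpos a ha
  have hτ1 : (1 : ℝ) ≤ (τ : ℝ) - 1 := by
    have : (2 : ℝ) ≤ τ := by exact_mod_cast (by omega : 2 ≤ τ)
    linarith
  have hℓ : (0 : ℝ) ≤ ℓ := by positivity
  have htR : (t : ℝ) = τ + ℓ := by exact_mod_cast hτ.symm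
  have hrR : (1 : ℝ) ≤ r := by exact_mod_cast hr
  have hc : ((e.erase a).card : ℝ) = (r : ℝ) - 1 := by
    rw [card_erase_of_mem ha, he]
    push_cast [Nat.cast_sub hr]
    ring
  have h3 : ((r : ℝ) - 1) * (1 / ((t : ℝ) - 1)) + 1 / ((τ : ℝ) - 1) ≤ wt H e := by
    unfold wt
    rw [← sum_erase_add e _ ha]
    apply add_le_add
    · rw [← hc, ← nsmul_eq_mul]
      apply card_nsmul_le_sum
      intro b hb
      have hb' := mem_of_mem_erase hb
      have h4 : (dg H (e.erase b) : ℝ) ≤ t - 1 := by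
        have := h b hb'
        have : (dg H (e.erase b) : ℝ) + 1 ≤ t := by exact_mod_cast this
        linarith
      have h5 : (1 : ℝ) ≤ dg H (e.erase b) := by exact_mod_cast hpos b hb'
      exact one_div_le_one_div_of_le (by linarith) h4
    · have h4 : (dg H (e.erase a) : ℝ) ≤ τ - 1 := by
        have : (dg H (e.erase a) : ℝ) + 1 ≤ τ := by exact_mod_cast haτ
        linarith
      have h5 : (1 : ℝ) ≤ dg H (e.erase a) := by exact_mod_cast h1
      exact one_div_le_one_div_of_le (by linarith) h4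
  have h4 : ((t : ℝ) - 1) / r * (((r : ℝ) - 1) * (1 / ((t : ℝ) - 1)) + 1 / ((τ : ℝ) - 1))
      ≤ ((t : ℝ) - 1) / r * wt H e :=
    mul_le_mul_of_nonneg_left h3 (by
      have : (0 : ℝ) ≤ (t : ℝ) - 1 := by linarith
      positivity)
  have ht1 : (0 : ℝ) < (t : ℝ) - 1 := by linarith
  have h5 : ((t : ℝ) - 1) / r * (((r : ℝ) - 1) * (1 / ((t : ℝ) - 1)) + 1 / ((τ : ℝ) - 1))
      = 1 + (ℓ : ℝ) / (r * ((τ : ℝ) - 1)) := by
    have : (τ : ℝ) - 1 ≠ 0 := by linarith
    have : (t : ℝ) - 1 ≠ 0 := ht1.ne'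
    have : (r : ℝ) ≠ 0 := by linarith
    field_simp
    rw [htR]
    ring
  have h6 : (ℓ : ℝ) / (r * t) ≤ (ℓ : ℝ) / (r * ((τ : ℝ) - 1)) := by
    apply div_le_div_of_nonneg_left hℓ (by positivity)
    apply mul_le_mul_of_nonneg_left _ (by linarith)
    linarith
  linarith

theorem wt_inv {H : Finset (Finset V)} {e : Finset V} {r : ℕ} {β C : ℝ}
    (hC : 0 ≤ C) (p : Fin r → V) (hp : Function.Injective p) (hpe : im p = e)
    (hmono : Monotone (fun i => dg H (e.erase (p i))))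
    (hpos : ∀ a ∈ e, 1 ≤ dg H (e.erase a)) (i : Fin r)
    (hi : (dg H (e.erase (p i)) : ℝ) ≤ ((i : ℕ) + 1) * (β - C)) :
    1 - β * wt H e ≤ - (C / β) := by
  have h1 : (1 : ℝ) ≤ dg H (e.erase (p i)) := by
    exact_mod_cast hpos (p i) (hpe ▸ mem_im p i)
  have hi0 : (0 : ℝ) < (i : ℕ) + 1 := by positivity
  have hβC : 0 < β - C := by
    by_contra hcon
    push Not at hcon
    have : ((i : ℕ) + 1 : ℝ) * (β - C) ≤ 0 := mul_nonpos_of_nonneg_of_nonpos hi0.le hcon
    linarith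
  have hβ : 0 < β := by linarith
  have h2 : 1 / (β - C) ≤ wt H e := by
    unfold wt
    have e1 : ∑ a ∈ e, (1 : ℝ) / dg H (e.erase a) = ∑ j : Fin r, (1 : ℝ) / dg H (e.erase (p j)) := by
      conv_lhs => rw [← hpe]
      rw [sum_im hp (fun a => (1 : ℝ) / dg H ((im p).erase a)), hpe]
    rw [e1]
    have e2 : ∑ j ∈ univ.filter (fun j : Fin r => j ≤ i), (1 : ℝ) / dg H (e.erase (p j))
        ≤ ∑ j : Fin r, (1 : ℝ) / dg H (e.erase (p j)) :=
      sum_le_sum_of_subset_of_nonneg (filter_subset _ _) (fun _ _ _ => by positivity)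
    refine le_trans ?_ e2
    have e3 : (univ.filter (fun j : Fin r => j ≤ i)).card = (i : ℕ) + 1 := by
      rw [show univ.filter (fun j : Fin r => j ≤ i) = Iic i from by ext; simp, Fin.card_Iic]
    have e4 : (((i : ℕ) + 1 : ℕ) : ℝ) * (1 / (((i : ℕ) + 1) * (β - C))) ≤
        ∑ j ∈ univ.filter (fun j : Fin r => j ≤ i), (1 : ℝ) / dg H (e.erase (p j)) := by
      rw [← e3, ← nsmul_eq_mul]
      apply card_nsmul_le_sum
      intro j hj
      have hji := (mem_filter.mp hj).2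
      have h4 : (dg H (e.erase (p j)) : ℝ) ≤ dg H (e.erase (p i)) := by exact_mod_cast hmono hji
      have h5 : (1 : ℝ) ≤ dg H (e.erase (p j)) := by
        exact_mod_cast hpos (p j) (hpe ▸ mem_im p j)
      exact one_div_le_one_div_of_le (by linarith) (by linarith)
    refine le_trans (le_of_eq ?_) e4
    push_cast
    field_simp
  have h3 : β * (1 / (β - C)) ≤ β * wt H e := mul_le_mul_of_nonneg_left h2 hβ.le
  have h4 : 1 + C / β ≤ β * (1 / (β - C)) := by
    rw [mul_one_div, le_div_iff₀ hβC]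
    have : (1 + C / β) * (β - C) = β - C ^ 2 / β := by
      field_simp
      ring
    rw [this]
    have : 0 ≤ C ^ 2 / β := by positivity
    linarith
  linarith

end Pool.Agent.W934.K
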